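import Pool.Agent.MP_d920b6_mp.NilC

namespace Pool.Agent.MP_d920b6_mp.Nil

open Module

variable {K H : Type*} [Field K] [LieRing H] [LieAlgebra K H]

lemma exists_next [LieRing.IsNilpotent H] (W : Submodule K H) (hW : W ≠ ⊤) :
    ∃ ξ, ξ ∉ W ∧ ∀ x : H, ⁅x, ξ⁆ ∈ W := by
  obtain ⟨N, hN⟩ := LieModule.IsNilpotent.nilpotent K H H
  by_contra hc
  push Not at hc
  have : ∀ j k, k + j = N → ∀ ξ ∈ LieModule.lowerCentralSeries K H H k, ξ ∈ W := by
    intro j
    induction j with
    | zero =>
      intro k hk ξ hξ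
      rw [show k = N by omega, hN, LieSubmodule.mem_bot] at hξ
      rw [hξ]; exact zero_mem _
    | succ j ih =>
      intro k hk ξ hξ
      by_contra h
      obtain ⟨x, hx⟩ := hc ξ h
      refine hx (ih (k + 1) (by omega) _ ?_)
      rw [LieModule.lowerCentralSeries_succ]
      exact LieSubmodule.lie_mem_lie (LieSubmodule.mem_top x) hξ
  exact hW (eq_top_iff.2 fun ξ _ => this N 0 (by omega) ξ (by simp))

lemma exists_flag [LieRing.IsNilpotent H] [FiniteDimensional K H] (j : ℕ) (hj : j ≤ finrank K H) :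
    ∃ e : Fin j → H, LinearIndependent K e ∧
      ∀ i, ∀ x : H, ⁅x, e i⁆ ∈ Submodule.span K (e '' {k | k < i}) := by
  induction j with
  | zero => exact ⟨Fin.elim0, linearIndependent_empty_type, fun i => i.elim0⟩
  | succ j ih =>
    obtain ⟨e, he, he'⟩ := ih (by omega)
    obtain ⟨ξ, hξ, hξ'⟩ := exists_next (Submodule.span K (Set.range e)) fun h => by
      have := finrank_span_eq_card he
      rw [h, finrank_top, Fintype.card_fin] at this
      omega
    refine ⟨Fin.snoc e ξ, linearIndependent_finSnoc.2 ⟨he, hξ⟩, fun i x => ?_⟩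
    refine Fin.lastCases ?_ (fun i => ?_) i
    · rw [Fin.snoc_last]
      refine Submodule.span_mono ?_ (hξ' x)
      rintro _ ⟨k, rfl⟩
      exact ⟨k.castSucc, Fin.castSucc_lt_last k, by simp⟩
    · rw [Fin.snoc_castSucc]
      refine Submodule.span_mono ?_ (he' i x)
      rintro _ ⟨k, hk, rfl⟩
      exact ⟨k.castSucc, Fin.castSucc_lt_castSucc_iff.2 hk, by simp⟩

lemma exists_tri [LieRing.IsNilpotent H] [FiniteDimensional K H] :
    ∃ e : Basis (Fin (finrank K H)) K H, Tri fun i j k => e.repr ⁅e i, e j⁆ k := by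
  obtain ⟨e, he, he'⟩ := exists_flag (K := K) (H := H) _ le_rfl
  let B : Basis (Fin (finrank K H)) K H := Basis.mk he
    (he.span_eq_top_of_card_eq_finrank' (by simp)).ge
  have hB : ∀ i, B i = e i := fun i => Basis.mk_apply _ _ _
  refine ⟨B, fun i j k => ?_, fun i j k hk => ?_, fun i j l m => ?_⟩
  · rw [← lie_skew, map_neg]; rfl
  · have h1 := he' j (B i)
    rw [← hB, show e = B from (funext hB).symm] at h1
    exact B.repr_support_subset_of_mem_span _ h1 (Finsupp.mem_support_iff.2 hk)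
  · have e1 : ∀ (x y : H), B.repr ⁅x, y⁆ m = ∑ k, B.repr y k * B.repr ⁅x, B k⁆ m := by
      intro x y
      conv_lhs => rw [← B.sum_repr y]
      simp only [lie_sum, lie_smul, map_sum, map_smul, Finsupp.coe_finsetSum, Finset.sum_apply,
        Finsupp.smul_apply, smul_eq_mul]
    have e2 : ∀ (x y : H), B.repr ⁅x, y⁆ m = ∑ k, B.repr x k * B.repr ⁅B k, y⁆ m := by
      intro x y
      conv_lhs => rw [← B.sum_repr x]
      simp only [sum_lie, smul_lie, map_sum, map_smul, Finsupp.coe_finsetSum, Finset.sum_apply,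
        Finsupp.smul_apply, smul_eq_mul]
    rw [← e1, ← e1, ← e2, lie_lie, map_sub]; rfl

open Matrix MvPolynomial in
lemma PM_eval {n : ℕ} (e : Basis (Fin n) K H) (y : Dual K H) (u v : Fin n → K) :
    u ⬝ᵥ ((PM fun i j k => e.repr ⁅e i, e j⁆ k).map (eval fun i => y (e i))) *ᵥ v =
      y ⁅∑ i, u i • e i, ∑ i, v i • e i⁆ := by
  have e1 : ∀ i j, eval (fun i => y (e i)) (PM (fun i j k => e.repr ⁅e i, e j⁆ k) i j) =
      y ⁅e i, e j⁆ := by
    intro i j
    conv_rhs => rw [← e.sum_repr ⁅e i, e j⁆, map_sum]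
    simp [PM]
  simp only [dotProduct, mulVec, map_apply, e1, sum_lie, lie_sum, smul_lie, lie_smul, map_sum,
    map_smul, smul_eq_mul, Finset.mul_sum]
  rw [Finset.sum_comm]
  exact Finset.sum_congr rfl fun i _ => Finset.sum_congr rfl fun j _ => by ring

open Matrix MvPolynomial in
lemma rank_eval {n : ℕ} (e : Basis (Fin n) K H) (y : Dual K H) (S : Submodule K H)
    (hS : ∀ ξ, ξ ∈ S ↔ ∀ η, y ⁅ξ, η⁆ = 0) :
    ((PM fun i j k => e.repr ⁅e i, e j⁆ k).map (eval fun i => y (e i))).rank + finrank K S = n := by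
  set M := (PM fun i j k => e.repr ⁅e i, e j⁆ k).map (eval fun i => y (e i)) with hM
  have h1 := LinearMap.finrank_range_add_finrank_ker M.mulVecLin
  have h2 : (LinearMap.ker M.mulVecLin).map e.equivFun.symm.toLinearMap = S := by
    ext ξ
    rw [hS]
    constructor
    · rintro ⟨v, hv, rfl⟩ η
      have hv' : M *ᵥ v = 0 := hv
      have := PM_eval e y (e.equivFun η) v
      rw [← hM, hv', dotProduct_zero] at this
      rw [← lie_skew, map_neg, neg_eq_zero, this]
      simp
    · intro h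
      refine ⟨e.equivFun ξ, ?_, by simp⟩
      ext i
      have := PM_eval e y (Pi.single i 1) (e.equivFun ξ)
      rw [← hM, single_one_dotProduct, ← lie_skew, map_neg] at this
      simp only [Basis.equivFun_apply, Basis.sum_repr, h, neg_zero] at this
      exact this
  rw [← h2, LinearEquiv.finrank_map_eq]
  rw [finrank_fintype_fun_eq_card, Fintype.card_fin] at h1
  exact h1

end Pool.Agent.MP_d920b6_mp.Nil
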