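import Pool.Agent.MP_d920b6_mp.NilJ

namespace Pool.Agent.MP_d920b6_mp.Nil

open Matrix Module MvPolynomial

variable {K : Type*} [Field K] {n : ℕ} {c : Fin n → Fin n → Fin n → K}

lemma rank_eval_le {F m n' τ : Type*} [Field F] [Fintype m] [Fintype n']
    (M : Matrix m n' (MvPolynomial τ K)) (f : MvPolynomial τ K →+* F)
    (hf : Function.Injective f) (z : τ → K) : (M.map (eval z)).rank ≤ (M.map f).rank := by
  classical
  rw [rank_eq_finrank_span_row (M.map (eval z))]
  obtain ⟨g, hg, -⟩ := exists_indep (F := K) (M.map (eval z)).row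
  obtain ⟨e, he⟩ := exists_minor _ hg
  have h1 : ((M.map f).submatrix g e).det ≠ 0 := by
    have e1 : (M.map f).submatrix g e = f.mapMatrix (M.submatrix g e) := rfl
    have e2 : (Matrix.of fun i j => ((M.map (eval z)).row ∘ g) i (e j)) =
      (eval z).mapMatrix (M.submatrix g e) := rfl
    rw [e2, ← RingHom.map_det] at he
    rw [e1, ← RingHom.map_det]
    intro h0
    exact he (by rw [hf (h0.trans (map_zero f).symm), map_zero])
  have h2 := rank_of_det_ne_zero h1
  have h3 := rank_submatrix_le (M.map f) g e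
  simp at h2
  omega

/-- the truncated loop algebra -/
noncomputable def dl (c : Fin n → Fin n → Fin n → K) (d : ℕ) (p : Fin n ×ₗ Fin (d * 2 ^ n + 1)) :
    Derivation K (MvPolynomial (Fin n × ℕ) K) (MvPolynomial (Fin n × ℕ) K) :=
  if 1 ≤ (ofLex p).2.val ∧ (ofLex p).2.val ≤ d * 2 ^ (n - (ofLex p).1.val) then
    dj c (ofLex p).1 (ofLex p).2 else 0

lemma dl_br (h : Tri c) (d : ℕ) (p q : Fin n ×ₗ Fin (d * 2 ^ n + 1))
    (I : Ideal (MvPolynomial (Fin n × ℕ) K)) (u) (hu : ∀ r < p, dl c d r u ∈ I) :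
    dl c d p (dl c d q u) - dl c d q (dl c d p u) ∈ I := by
  obtain ⟨i, m⟩ := p
  obtain ⟨j, m'⟩ := q
  by_cases hp : 1 ≤ m.val ∧ m.val ≤ d * 2 ^ (n - i.val)
  · by_cases hq : 1 ≤ m'.val ∧ m'.val ≤ d * 2 ^ (n - j.val)
    · have e1 : dl c d (i, m) = dj c i m := if_pos hp
      have e2 : dl c d (j, m') = dj c j m' := if_pos hq
      rw [e1, e2, dj_comm h]
      refine I.sum_mem fun r _ => ?_
      by_cases hr : c i j r = 0
      · simp [hr]
      have h1 : r < i := h.tri' _ _ _ hr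
      have h2 : r < j := h.tri _ _ _ hr
      have h3 : m.val + m'.val ≤ d * 2 ^ (n - r.val) := by
        have a1 : 2 ^ (n - i.val) ≤ 2 ^ (n - r.val - 1) :=
          Nat.pow_le_pow_right (by norm_num) (by omega)
        have a2 : 2 ^ (n - j.val) ≤ 2 ^ (n - r.val - 1) :=
          Nat.pow_le_pow_right (by norm_num) (by omega)
        have a3 : 2 ^ (n - r.val) = 2 ^ (n - r.val - 1) + 2 ^ (n - r.val - 1) := by
          conv_lhs => rw [show n - r.val = (n - r.val - 1) + 1 by omega, pow_succ]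
          ring
        rw [a3, mul_add]
        exact add_le_add (hp.2.trans (Nat.mul_le_mul_left _ a1))
          (hq.2.trans (Nat.mul_le_mul_left _ a2))
      have h4 : m.val + m'.val < d * 2 ^ n + 1 := Nat.lt_succ_of_le
        (h3.trans (Nat.mul_le_mul_left _ (Nat.pow_le_pow_right (by norm_num) (by omega))))
      have h5 := hu (toLex (r, ⟨_, h4⟩)) (Prod.Lex.left _ _ h1)
      have e3 : dl c d (toLex (r, ⟨_, h4⟩)) = dj c r (m + m') :=
        if_pos ⟨hp.1.trans (Nat.le_add_right _ _), h3⟩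
      rw [e3] at h5
      rw [smul_eq_C_mul]
      exact I.mul_mem_left _ h5
    · have e2 : dl c d (j, m') = 0 := if_neg hq
      simp [e2]
  · have e1 : dl c d (i, m) = 0 := if_neg hp
    simp [e1]

lemma dl_fil (h : Tri c) (d : ℕ) (p : Fin n ×ₗ Fin (d * 2 ^ n + 1)) (q : Fin n × ℕ) :
    dl c d p (X q) ∈ Submodule.span K
      {z | ∃ r : Fin n × ℕ, r.1.val < q.1.val ∧ z = (X r : MvPolynomial (Fin n × ℕ) K)} := by
  obtain ⟨j, l⟩ := q
  unfold dl
  split_ifs
  · rw [dj_X]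
    split_ifs
    · refine Submodule.sum_mem _ fun r _ => ?_
      by_cases hr : c (ofLex p).1 j r = 0
      · simp [hr]
      · exact Submodule.smul_mem _ _ (Submodule.subset_span ⟨_, h.tri _ _ _ hr, rfl⟩)
    · exact zero_mem _
  · simp

/-- algebra generated by the jets of the Vergne family -/
noncomputable def jetO (c : Fin n → Fin n → Fin n → K) :
    Subalgebra K (MvPolynomial (Fin n × ℕ) K) :=
  Algebra.adjoin K {u | ∃ j, ∃ f ∈ Zc c j, ∃ l, u = PowerSeries.coeff l (jet K n f)}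

lemma dl_jetO (h : Tri c) (d : ℕ) (p : Fin n ×ₗ Fin (d * 2 ^ n + 1)) (u) (hu : u ∈ jetO c) :
    dl c d p u ∈ jetO c := by
  unfold dl
  split_ifs
  · induction hu using Algebra.adjoin_induction with
    | mem z hz =>
      obtain ⟨j, f, hf, l, rfl⟩ := hz
      rw [dj_jet, PowerSeries.coeff_X_pow_mul']
      split_ifs
      · exact Algebra.subset_adjoin ⟨j, _, ad_Zc h _ f hf, _, rfl⟩
      · exact zero_mem _
    | algebraMap r => simp
    | add a b _ _ ha hb => rw [map_add]; exact add_mem ha hb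
    | mul a b ha' hb' ha hb =>
      rw [Derivation.leibniz, smul_eq_mul, smul_eq_mul]
      exact add_mem (mul_mem ha' hb) (mul_mem hb' ha)
  · simp

section Fr

variable {k : Type*} [Field k] [Algebra K k] (ι : MvPolynomial (Fin n) K →ₐ[K] k) (a : Fin n → K)

noncomputable def xi {d : ℕ} (e : Fin n ×ₗ Fin (d * 2 ^ n + 1) → k) (i : Fin n) : Polynomial k :=
  ∑ m : Fin (d * 2 ^ n + 1), if 1 ≤ m.val ∧ m.val ≤ d * 2 ^ (n - i.val) then
    Polynomial.C (e (toLex (i, m))) * Polynomial.X ^ m.val else 0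

lemma xi_jet {d : ℕ} (e : Fin n ×ₗ Fin (d * 2 ^ n + 1) → k) (f : MvPolynomial (Fin n) K) (l : ℕ) :
    ∑ p, e p * ι (sigA a (dl c d p (PowerSeries.coeff l (jet K n f)))) =
      (xi e ⬝ᵥ (PM c).map (shf ι a) *ᵥ (shf ι a ∘ grad f)).coeff l := by
  rw [← (toLex : Fin n × Fin (d * 2 ^ n + 1) ≃ _).sum_comp, Fintype.sum_prod_type, dotProduct,
    Polynomial.finsetSum_coeff]
  refine Finset.sum_congr rfl fun i _ => ?_
  rw [← map_ad, xi, Finset.sum_mul, Polynomial.finsetSum_coeff]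
  refine Finset.sum_congr rfl fun m _ => ?_
  by_cases hm : 1 ≤ m.val ∧ m.val ≤ d * 2 ^ (n - i.val)
  · have e1 : dl c d (toLex (i, m)) = dj c i m := if_pos hm
    rw [e1, if_pos hm, dj_jet, mul_assoc, Polynomial.coeff_C_mul]
    congr 1
    have := congrArg (PowerSeries.coeff l)
      (map_mul (PowerSeries.mapAlgHom (ι.comp (sigA a))) (PowerSeries.X ^ m.val)
        (jet K n (ad c i f)))
    rw [sig_jet, PowerSeries.mapAlgHom_apply, PowerSeries.coeff_map] at this
    refine this.trans ?_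
    rw [← Polynomial.coeff_coe]
    simp [PowerSeries.mapAlgHom_apply]
  · have e1 : dl c d (toLex (i, m)) = 0 := if_neg hm
    rw [e1, if_neg hm]; simp

lemma xi_dvd {d : ℕ} (e : Fin n ×ₗ Fin (d * 2 ^ n + 1) → k) :
    ∃ ξ : Fin n → Polynomial k, xi e = (Polynomial.X : Polynomial k) • ξ := by
  have : ∀ i, Polynomial.X ∣ xi e i := fun i => by
    refine Finset.dvd_sum fun m _ => ?_
    split_ifs with hm
    · exact Dvd.dvd.mul_left (dvd_pow_self _ (by omega)) _
    · exact dvd_zero _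
  choose ξ hξ using this
  exact ⟨ξ, funext hξ⟩

lemma xi_surj {d : ℕ} (ξ : Fin n → Polynomial k) (hξ : ∀ i, (ξ i).natDegree ≤ d)
    (hξ0 : ∀ i, (ξ i).coeff 0 = 0) :
    xi (d := d) (fun p => (ξ (ofLex p).1).coeff (ofLex p).2.val) = ξ := by
  ext1 i
  have h1 : d ≤ d * 2 ^ (n - i.val) := Nat.le_mul_of_pos_right _ (by positivity)
  have h2 : d ≤ d * 2 ^ n := Nat.le_mul_of_pos_right _ (by positivity)
  conv_rhs => rw [(ξ i).as_sum_range' (d * 2 ^ n + 1) (by have := hξ i; omega)]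
  rw [xi, Finset.sum_range]
  refine Finset.sum_congr rfl fun m _ => ?_
  split_ifs with hm
  · simp [Polynomial.C_mul_X_pow_eq_monomial]
  · rcases Nat.eq_zero_or_pos m.val with h0 | h0
    · rw [h0, hξ0]; simp
    · rw [Polynomial.coeff_eq_zero_of_natDegree_lt (by have := hξ i; omega)]; simp

end Fr

lemma bigE_deg {k : Type*} [Field k] (P0 P1 : Matrix (Fin n) (Fin n) k)
    (Λ : Set (Fin n → Polynomial k)) :
    ∃ d, ∀ v ∈ bigE P0 P1 Λ, ∃ ξ : Fin n → Polynomial k, (∀ i, (ξ i).natDegree ≤ d) ∧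
      ∀ g ∈ Λ, cv v ⬝ᵥ g = ξ ⬝ᵥ pen P0 P1 *ᵥ g := by
  obtain ⟨s, hs⟩ := IsNoetherian.noetherian (bigE P0 P1 Λ)
  have h1 : ∀ v : s, ∃ ξ : Fin n → Polynomial k, ∀ g ∈ Λ, cv v.1 ⬝ᵥ g = ξ ⬝ᵥ pen P0 P1 *ᵥ g :=
    fun v => (hs ▸ Submodule.subset_span v.2 : v.1 ∈ bigE P0 P1 Λ)
  choose ξ hξ using h1
  refine ⟨Finset.univ.sup fun p : s × Fin n => (ξ p.1 p.2).natDegree, fun v hv => ?_⟩
  rw [← hs] at hv
  induction hv using Submodule.span_induction with
  | mem x hx =>
    exact ⟨ξ ⟨x, hx⟩, fun i => Finset.le_sup (f := fun p : s × Fin n => (ξ p.1 p.2).natDegree)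
      (Finset.mem_univ (⟨x, hx⟩, i)), hξ ⟨x, hx⟩⟩
  | zero =>
    refine ⟨0, fun i => by simp, fun g _ => ?_⟩
    have : cv (0 : Fin n → k) = 0 := by ext1 i; simp [cv]
    simp [this]
  | add x y _ _ hx hy =>
    obtain ⟨ξ1, h1, h1'⟩ := hx
    obtain ⟨ξ2, h2, h2'⟩ := hy
    refine ⟨ξ1 + ξ2, fun i => (Polynomial.natDegree_add_le _ _).trans (max_le (h1 i) (h2 i)),
      fun g hg => ?_⟩
    have : cv (x + y) = cv x + cv y := by ext1 i; simp [cv]
    rw [this, add_dotProduct, add_dotProduct, h1' g hg, h2' g hg]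
  | smul r x _ hx =>
    obtain ⟨ξ1, h1, h1'⟩ := hx
    refine ⟨(Polynomial.C r : Polynomial k) • ξ1,
      fun i => (Polynomial.natDegree_C_mul_le _ _).trans (h1 i), fun g hg => ?_⟩
    have : cv (r • x) = (Polynomial.C r : Polynomial k) • cv x := by ext1 i; simp [cv]
    rw [this, smul_dotProduct, smul_dotProduct, h1' g hg]

lemma dot_span {R : Type*} [CommRing R] {W : Set (Fin n → R)} {η : Fin n → R}
    (h : ∀ g ∈ W, η ⬝ᵥ g = 0) : ∀ g ∈ Submodule.span R W, η ⬝ᵥ g = 0 := by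
  intro g hg
  induction hg using Submodule.span_induction with
  | mem x hx => exact h x hx
  | zero => simp
  | add a b _ _ ha hb => rw [dotProduct_add, ha, hb, add_zero]
  | smul r a _ ha => rw [dotProduct_smul, ha, smul_zero]

variable [CharZero K]

lemma coiso_poly {R : Type*} [CommRing R] [IsDomain R] [Algebra K R] (h : Tri c)
    (φ : MvPolynomial (Fin n) K →ₐ[K] R) (hφ : Function.Injective φ) (η : Fin n → R)
    (hη : ∀ g ∈ Submodule.span R {w | ∃ j, ∃ f ∈ Zc c j, w = φ ∘ grad f}, η ⬝ᵥ g = 0) :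
    ∃ q : R, q ≠ 0 ∧ ∃ ζ ∈ Submodule.span R {w | ∃ j, ∃ f ∈ Zc c j, w = φ ∘ grad f},
      q • η = (PM c).map φ *ᵥ ζ := by
  set F := FractionRing R
  let ψ : MvPolynomial (Fin n) K →ₐ[K] F := (IsScalarTower.toAlgHom K R F).comp φ
  have hinj : Function.Injective (algebraMap R F) := IsFractionRing.injective R F
  obtain ⟨ζ, hζ, he⟩ := coiso ψ h (hinj.comp hφ) (algebraMap R F ∘ η) fun j f hf => by
    have := congrArg (algebraMap R F) (hη _ (Submodule.subset_span ⟨j, f, hf, rfl⟩))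
    simpa [dotProduct, ψ] using this
  obtain ⟨t, ht⟩ := multiple_mem_span_of_mem_localization_span (nonZeroDivisors R) F _ ζ hζ
  let T : (Fin n → R) →ₗ[R] (Fin n → F) := (Algebra.linearMap R F).compLeft (Fin n)
  have : {w | ∃ j, ∃ f ∈ Zc c j, w = ψ ∘ grad f} =
      T '' {w | ∃ j, ∃ f ∈ Zc c j, w = φ ∘ grad f} := by
    ext w
    constructor
    · rintro ⟨j, f, hf, rfl⟩; exact ⟨_, ⟨j, f, hf, rfl⟩, rfl⟩
    · rintro ⟨_, ⟨j, f, hf, rfl⟩, rfl⟩; exact ⟨j, f, hf, rfl⟩
  rw [this, ← Submodule.map_span] at ht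
  obtain ⟨ζ', hζ', hT⟩ := ht
  refine ⟨t, nonZeroDivisors.coe_ne_zero t, ζ', hζ', funext fun i => hinj ?_⟩
  have e1 := congrFun he i
  have e2 : ∀ j, algebraMap R F (ζ' j) = algebraMap R F t * ζ j := fun j => by
    have := congrFun hT j
    simpa [T, Submonoid.smul_def, Algebra.smul_def] using this
  simp only [Function.comp_apply] at e1
  simp only [Pi.smul_apply, smul_eq_mul, map_mul, e1, mulVec, dotProduct, map_sum, e2,
    Finset.mul_sum]
  refine Finset.sum_congr rfl fun j _ => ?_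
  simp [ψ]; ring

theorem coord (h : Tri c) (a b : Fin n → K)
    (hreg : ∀ z : Fin n → K, ((PM c).map (eval z)).rank ≤ ((PM c).map (eval b)).rank) :
    ∃ (m : ℕ) (f : Fin m → MvPolynomial (Fin n) K),
      2 * n ≤ 2 * m + ((PM c).map (eval b)).rank ∧
      (∀ i j, grad (f i) ⬝ᵥ PM c *ᵥ grad (f j) = 0 ∧
        grad (f i) ⬝ᵥ ((PM c).map (eval a)).map C *ᵥ grad (f j) = 0) ∧
      ∃ p : MvPolynomial (Fin n) K, p ≠ 0 ∧ ∀ z : Fin n → K, eval z p ≠ 0 →
        LinearIndependent K fun i => eval z ∘ grad (f i) := by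
  classical
  set A := MvPolynomial (Fin n) K
  set k := FractionRing A
  let ι : A →ₐ[K] k := IsScalarTower.toAlgHom K A k
  have hι : Function.Injective ι := IsFractionRing.injective A k
  have hιC : ∀ r : K, ι (C r) = algebraMap K k r := fun r => ι.commutes r
  set Pa := (PM c).map (eval a) with hPa
  set P1 := (PM c).map ι with hP1
  set P0 := Pa.map (algebraMap K k) with hP0
  have hpen : (PM c).map (shf ι a) = pen P0 P1 := shf_PM ι a
  have h1 : P1ᵀ = -P1 := map_skew ι h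
  have h0 : P0ᵀ = -P0 := by
    rw [hP0, hPa, ← transpose_map, ← transpose_map, PM_skew h]; ext; simp
  set W := {w | ∃ j, ∃ f ∈ Zc c j, w = shf ι a ∘ grad f} with hW
  set Λ := Submodule.span (Polynomial k) W with hΛ
  have hiso : ∀ g ∈ Λ, ∀ g' ∈ Λ, g ⬝ᵥ pen P0 P1 *ᵥ g' = 0 := fun g hg g' hg' =>
    hpen ▸ iso_span (shf ι a) h W (fun _ => id) W (fun _ => id) g g' hg hg'
  have hr1 : P1.rank ≤ ((PM c).map (eval b)).rank := rank_map_le (PM c) (ι : A →+* k) _ hreg
  have hdim : 2 * finrank k (bigE P0 P1 Λ) ≤ P1.rank := by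
    refine dimE h0 h1 Λ hiso (fun η hη => hpen ▸ coiso_poly h _ (shf_inj ι a hι) η hη) ?_
    refine le_trans ?_ (rank_eval_le (PM c) (ι : A →+* k) hι b)
    rw [← hpen, Matrix.map_map]
    exact rank_map_le (PM c) ((algebraMap (Polynomial k) (FractionRing (Polynomial k))).comp
      (shf ι a : A →+* Polynomial k)) _ hreg
  obtain ⟨d0, hd⟩ := bigE_deg P0 P1 Λ
  set d := d0 + 1 with hd0
  obtain ⟨B, hB, hB'⟩ := lemmaU (ι.comp (sigA a)) (dl c d)
    (fun m => (fil K (fun p : Fin n × ℕ => p.1.val) m : Set _)) (fil_zero _)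
    (fun m p u hu => fil_der _ _ (dl_fil h d p) m u hu) (fil_ex _) (dl_br h d) (jetO c)
    (dl_jetO h d)
  let w : B → Fin n → k := fun u => ι ∘ grad (sigA a u.1)
  have hw1 : ∀ u, w u ∈ ann (bigE P0 P1 Λ : Set (Fin n → k)) := by
    intro u v hv
    obtain ⟨ξ, hξd, hξ⟩ := hd v hv
    set e : Fin n ×ₗ Fin (d * 2 ^ n + 1) → k :=
      fun p => (((Polynomial.X : Polynomial k) • ξ) (ofLex p).1).coeff (ofLex p).2.val with he
    have key : ∀ z ∈ jetO c, dirD ι v (sigA a z) = ∑ p, e p * ι (sigA a (dl c d p z)) := by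
      intro z hz
      induction hz using Algebra.adjoin_induction with
      | mem z hz =>
        obtain ⟨j, f, hf, l, rfl⟩ := hz
        rw [dir_jet, xi_jet, he, xi_surj ((Polynomial.X : Polynomial k) • ξ)
          (fun i => (Polynomial.natDegree_mul_le (p := Polynomial.X) (q := ξ i)).trans (by
          have := hξd i; rw [Polynomial.natDegree_X]; omega)) (fun i => by simp), hpen,
          hξ _ (Submodule.subset_span ⟨j, f, hf, rfl⟩), smul_dotProduct, smul_eq_mul]
      | algebraMap r => simp [dirD_apply, grad, dotProduct]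
      | add x y _ _ hx hy => simp [hx, hy, mul_add, Finset.sum_add_distrib]
      | mul x y _ _ hx hy =>
        simp only [map_mul, dirD_mul, hx, hy, Derivation.leibniz, smul_eq_mul, map_add,
          Finset.mul_sum, ← Finset.sum_add_distrib]
        exact Finset.sum_congr rfl fun p _ => by ring
    rw [dotProduct_comm]
    refine (key u.1 (hB u.1 u.2).1).trans (Finset.sum_eq_zero fun p _ => ?_)
    have := (hB u.1 u.2).2 p
    rw [AlgHom.comp_apply] at this
    rw [this, mul_zero]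
  set L := Submodule.span k (Set.range w) with hL
  have hw2 : ann (L : Set (Fin n → k)) ≤ bigE P0 P1 Λ := by
    intro v hv
    obtain ⟨e, he⟩ := hB' ((dirD ι v).comp (sigA a).toLinearMap) (fun x y => by simp [dirD_mul])
      fun u hu => hv _ (Submodule.subset_span ⟨⟨u, hu⟩, rfl⟩)
    obtain ⟨ξ, hξ⟩ := xi_dvd e
    refine ⟨ξ, fun g hg => ?_⟩
    rw [← sub_eq_zero, dotProduct_mulVec, ← sub_dotProduct]
    refine dot_span (fun g hg => ?_) g hg
    obtain ⟨j, f, hf, rfl⟩ := hg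
    rw [sub_dotProduct, ← dotProduct_mulVec, sub_eq_zero, ← hpen]
    refine mul_left_cancel₀ Polynomial.X_ne_zero ?_
    rw [← smul_eq_mul Polynomial.X (ξ ⬝ᵥ _), ← smul_dotProduct, ← hξ]
    ext l
    rw [← dir_jet, ← xi_jet]
    exact he _ (Algebra.subset_adjoin ⟨j, f, hf, l, rfl⟩)
  obtain ⟨g, hg, -⟩ := exists_indep (F := k) w
  refine ⟨_, fun i => sigA a (g i).1, ?_, fun i j => ?_, ?_⟩
  · have e1 := finrank_ann L
    have e2 := Submodule.finrank_mono hw2
    rw [Fintype.card_fin] at e1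
    rw [← hL]
    omega
  · obtain ⟨e1, e2⟩ := biIso h0 h1 Λ hiso _ _ (hw1 (g i)) (hw1 (g j))
    refine ⟨hι ?_, hι ?_⟩
    · rw [map_zero, ← e2]
      simp [dotProduct, mulVec, w, hP1]
    · rw [map_zero, ← e1]
      simp [dotProduct, mulVec, w, hP0, hιC]
  · obtain ⟨s, hs⟩ := exists_minor _ hg
    set M : Matrix _ _ A := Matrix.of fun i j => grad (sigA a (g i).1) (s j) with hM
    refine ⟨M.det, fun h0 => hs ?_, fun z hz => ?_⟩
    · have := RingHom.map_det (ι : A →+* k) M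
      rw [h0, map_zero] at this
      rw [this]; rfl
    · rw [RingHom.map_det] at hz
      have h2 := linearIndependent_rows_of_det_ne_zero hz
      exact LinearIndependent.of_comp (LinearMap.funLeft K K s) h2

end Pool.Agent.MP_d920b6_mp.Nil
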