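import Pool.Agent.MP_d920b6_mp.NilLin

namespace Pool.Agent.MP_d920b6_mp.Nil

open Matrix Module Polynomial

variable {k : Type*} [Field k] {n : Type*} [Fintype n]

noncomputable def pen (P0 P1 : Matrix n n k) : Matrix n n k[X] :=
  P0.map C + (X : k[X]) • P1.map C

noncomputable def cv (v : n → k) : n → k[X] := fun i => C (v i)

def cf (u : n → k[X]) (d : ℕ) : n → k := fun i => (u i).coeff d

lemma skew_dot {R : Type*} [CommRing R] {P : Matrix n n R} (h : Pᵀ = -P) (a b : n → R) :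
    a ⬝ᵥ P *ᵥ b = -(b ⬝ᵥ P *ᵥ a) := by
  rw [dotProduct_mulVec, ← mulVec_transpose, h, neg_mulVec, neg_dotProduct, dotProduct_comm]

omit [Fintype n] in
lemma pen_skew {P0 P1 : Matrix n n k} (h0 : P0ᵀ = -P0) (h1 : P1ᵀ = -P1) :
    (pen P0 P1)ᵀ = -pen P0 P1 := by
  ext1 i j
  have e0 : P0 j i = -P0 i j := congrFun (congrFun h0 i) j
  have e1 : P1 j i = -P1 i j := congrFun (congrFun h1 i) j
  simp [pen, e0, e1]; ring

lemma coeff_cv_dot (w : n → k) (u : n → k[X]) (d : ℕ) : (cv w ⬝ᵥ u).coeff d = w ⬝ᵥ cf u d := by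
  simp [dotProduct, cv, cf]

lemma cf_pen (P0 P1 : Matrix n n k) (u : n → k[X]) (d : ℕ) :
    cf (pen P0 P1 *ᵥ u) (d + 1) = P0 *ᵥ cf u (d + 1) + P1 *ᵥ cf u d := by
  ext i
  simp [cf, pen, mulVec, dotProduct, add_mul, Finset.sum_add_distrib, mul_assoc, coeff_X_mul]

lemma cv_pen (P0 P1 : Matrix n n k) (l : n → k) (g : n → k[X]) :
    cv l ⬝ᵥ pen P0 P1 *ᵥ g = cv (l ᵥ* P0) ⬝ᵥ g + X * (cv (l ᵥ* P1) ⬝ᵥ g) := by
  have e : ∀ P : Matrix n n k, cv l ᵥ* P.map C = cv (l ᵥ* P) := by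
    intro P; ext1 i; simp [cv, vecMul, dotProduct]
  rw [pen, add_mulVec, dotProduct_add, smul_mulVec, dotProduct_smul, dotProduct_mulVec,
    dotProduct_mulVec, e, e, smul_eq_mul]

/-- the space `E` -/
noncomputable def bigE (P0 P1 : Matrix n n k) (Λ : Set (n → k[X])) : Submodule k (n → k) where
  carrier := {v | ∃ ξ : n → k[X], ∀ g ∈ Λ, cv v ⬝ᵥ g = ξ ⬝ᵥ pen P0 P1 *ᵥ g}
  add_mem' := by
    rintro a b ⟨ξ, ha⟩ ⟨ξ', hb⟩
    refine ⟨ξ + ξ', fun g hg => ?_⟩
    have : cv (a + b) = cv a + cv b := by ext1 i; simp [cv]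
    rw [this, add_dotProduct, add_dotProduct, ha g hg, hb g hg]
  zero_mem' := ⟨0, fun g _ => by
    have : cv (0 : n → k) = 0 := by ext1 i; simp [cv]
    simp [this]⟩
  smul_mem' := by
    rintro c a ⟨ξ, ha⟩
    refine ⟨(C c : k[X]) • ξ, fun g hg => ?_⟩
    have : cv (c • a) = (C c : k[X]) • cv a := by ext1 i; simp [cv]
    rw [this, smul_dotProduct, smul_dotProduct, ha g hg]

lemma part2_key {P0 P1 : Matrix n n k} (h0 : P0ᵀ = -P0) (h1 : P1ᵀ = -P1)
    (Λ : Submodule k[X] (n → k[X])) (hiso : ∀ g ∈ Λ, ∀ g' ∈ Λ, g ⬝ᵥ pen P0 P1 *ᵥ g' = 0)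
    (l : n → k) (hl : l ∈ ann (bigE P0 P1 Λ : Set (n → k))) (q : k[X]) (hq : q.Monic) (D : ℕ)
    (hD : q.natDegree = D + 1) (ζ : n → k[X]) (hζ : ζ ∈ Λ)
    (hd : ∀ ξ, q ∣ ξ ⬝ᵥ pen P0 P1 *ᵥ ζ) :
    (cv (l ᵥ* P1) ⬝ᵥ fun i => ζ i %ₘ q).coeff D = 0 := by
  classical
  set ρ : n → k[X] := fun i => ζ i %ₘ q with hρ
  set ξp : n → k[X] := fun i => ζ i /ₘ q with hξp
  have hsplit : ζ = ρ + q • ξp := by
    ext1 i; simp [hρ, hξp, modByMonic_add_div]
  have hρ0 : ∀ d, D < d → cf ρ d = 0 := by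
    intro d hd
    ext i
    refine coeff_eq_zero_of_degree_lt ((degree_modByMonic_lt _ hq).trans_le ?_)
    rw [degree_eq_natDegree hq.ne_zero, hD]
    exact_mod_cast hd
  set v := P1 *ᵥ cf ρ D with hv
  have hpρ : pen P0 P1 *ᵥ ρ = q • cv v := by
    ext1 j
    have h2 : q ∣ (pen P0 P1 *ᵥ ρ) j := by
      have h3 := hd (Pi.single j 1)
      rw [single_one_dotProduct, hsplit, mulVec_add, mulVec_smul] at h3
      exact (dvd_add_left (Dvd.intro _ rfl)).1 h3
    have h4 : ((pen P0 P1 *ᵥ ρ) j).natDegree ≤ q.natDegree := by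
      rw [hD, natDegree_le_iff_coeff_eq_zero]
      intro N hN
      obtain ⟨d, rfl⟩ : ∃ d, N = d + 1 := ⟨N - 1, by omega⟩
      have := congrFun (cf_pen P0 P1 ρ d) j
      rw [hρ0 d (by omega), hρ0 (d + 1) (by omega)] at this
      simpa [cf] using this
    have h5 := eq_leadingCoeff_mul_of_monic_of_dvd_of_natDegree_le hq h2 h4
    have h6 := congrFun (cf_pen P0 P1 ρ D) j
    rw [hρ0 (D + 1) (by omega), mulVec_zero, zero_add, ← hv] at h6
    have h7 : ((pen P0 P1 *ᵥ ρ) j).coeff (D + 1) = v j := h6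
    rw [h5, coeff_C_mul, ← hD, hq.coeff_natDegree, mul_one] at h7
    rw [h5, h7]; simp [cv, mul_comm]
  have hvE : v ∈ bigE P0 P1 Λ := by
    refine ⟨ξp, fun g hg => mul_left_cancel₀ hq.ne_zero ?_⟩
    have e1 := hiso g hg ζ hζ
    rw [hsplit, mulVec_add, mulVec_smul, dotProduct_add, hpρ, dotProduct_smul, dotProduct_smul,
      skew_dot (pen_skew h0 h1) g ξp, dotProduct_comm g] at e1
    simp only [smul_eq_mul] at e1
    linear_combination e1
  rw [coeff_cv_dot, ← dotProduct_mulVec]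
  exact hl v hvE

lemma part2 {P0 P1 : Matrix n n k} (h0 : P0ᵀ = -P0) (h1 : P1ᵀ = -P1)
    (Λ : Submodule k[X] (n → k[X])) (hiso : ∀ g ∈ Λ, ∀ g' ∈ Λ, g ⬝ᵥ pen P0 P1 *ᵥ g' = 0)
    (l : n → k) (hl : l ∈ ann (bigE P0 P1 Λ : Set (n → k))) : l ᵥ* P1 ∈ bigE P0 P1 Λ := by
  classical
  obtain ⟨s, hs⟩ := IsNoetherian.noetherian Λ
  let T : (n → k[X]) →ₗ[k[X]] (s → k[X]) :=
    { toFun := fun ξ i => ξ ⬝ᵥ pen P0 P1 *ᵥ i.1
      map_add' := fun a b => by ext1 i; simp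
      map_smul' := fun c a => by ext1 i; simp }
  have key : (fun i : s => cv (l ᵥ* P1) ⬝ᵥ i.1) ∈ LinearMap.range T := by
    refine pid_dual _ _ fun u q hq hu => ?_
    set ζ : n → k[X] := ∑ i : s, u i • i.1 with hζ
    have hζΛ : ζ ∈ Λ := Submodule.sum_mem _ fun i _ =>
      Λ.smul_mem _ (hs ▸ Submodule.subset_span i.2)
    have hdot : ∀ (w : n → k[X]), (u ⬝ᵥ fun i : s => w ⬝ᵥ i.1) = w ⬝ᵥ ζ := by
      intro w
      rw [hζ, dotProduct_sum]
      simp only [dotProduct_smul, smul_eq_mul]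
      rfl
    have hd : ∀ ξ, q ∣ ξ ⬝ᵥ pen P0 P1 *ᵥ ζ := by
      intro ξ
      have := hu (T ξ) ⟨ξ, rfl⟩
      rw [dotProduct_mulVec, ← hdot]
      convert this using 2
      ext1 i
      simp [T, dotProduct_mulVec]
    rw [hdot]
    set γ := cv (l ᵥ* P1) ⬝ᵥ ζ with hγ
    rcases Nat.eq_zero_or_pos q.natDegree with hD | hD
    · rw [hq.natDegree_eq_zero.1 hD]; exact one_dvd _
    obtain ⟨D, hD⟩ : ∃ D, q.natDegree = D + 1 := ⟨q.natDegree - 1, by omega⟩
    rw [← modByMonic_eq_zero_iff_dvd hq]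
    by_contra hg
    set g := γ %ₘ q with hgdef
    have hgd : g.natDegree < D + 1 := by
      rw [← hD]; exact natDegree_lt_natDegree hg (degree_modByMonic_lt _ hq)
    set e := D - g.natDegree with he
    have h2 := part2_key h0 h1 Λ hiso l hl q hq D hD ((X ^ e : k[X]) • ζ) (Λ.smul_mem _ hζΛ)
      (fun ξ => by rw [mulVec_smul, dotProduct_smul]; exact Dvd.dvd.mul_left (hd ξ) _)
    set ρ : n → k[X] := fun i => ((X ^ e : k[X]) • ζ) i %ₘ q with hρ
    have hsplit : (X ^ e : k[X]) • ζ = ρ + q • fun i => ((X ^ e : k[X]) • ζ) i /ₘ q := by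
      ext1 i; simp [hρ, modByMonic_add_div]
    have h3 : q ∣ cv (l ᵥ* P1) ⬝ᵥ ρ - X ^ e * g := by
      have e1 := congrArg (fun z => cv (l ᵥ* P1) ⬝ᵥ z) hsplit
      simp only [dotProduct_add, dotProduct_smul, smul_eq_mul] at e1
      have e2 := modByMonic_add_div γ q
      refine ⟨X ^ e * (γ /ₘ q) - cv (l ᵥ* P1) ⬝ᵥ fun i => ((X ^ e : k[X]) • ζ) i /ₘ q, ?_⟩
      rw [← hγ] at e1
      linear_combination -e1 - X ^ e * e2
    have h4 : (cv (l ᵥ* P1) ⬝ᵥ ρ - X ^ e * g).natDegree < q.natDegree := by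
      rw [hD, Nat.lt_succ_iff, natDegree_le_iff_coeff_eq_zero]
      intro N hN
      have e1 : cf ρ N = 0 := by
        ext i
        refine coeff_eq_zero_of_degree_lt ((degree_modByMonic_lt _ hq).trans_le ?_)
        rw [degree_eq_natDegree hq.ne_zero, hD]
        exact_mod_cast hN
      rw [coeff_sub, coeff_cv_dot, e1, dotProduct_zero, zero_sub, neg_eq_zero]
      refine coeff_eq_zero_of_natDegree_lt (natDegree_mul_le.trans_lt ?_)
      rw [natDegree_X_pow]; omega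
    have h5 := eq_zero_of_dvd_of_natDegree_lt h3 h4
    rw [sub_eq_zero] at h5
    rw [h5, show D = g.natDegree + e by omega, coeff_X_pow_mul] at h2
    exact hg (leadingCoeff_eq_zero.1 h2)
  obtain ⟨ξ, hξ⟩ := key
  refine ⟨ξ, fun g hg => ?_⟩
  have hg' : g ∈ Submodule.span k[X] (s : Set (n → k[X])) := hs ▸ hg
  clear hg
  induction hg' using Submodule.span_induction with
  | mem x hx => exact (congrFun hξ ⟨x, hx⟩).symm
  | zero => simp
  | add a b _ _ ha hb => rw [dotProduct_add, mulVec_add, dotProduct_add, ha, hb]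
  | smul c a _ ha => rw [dotProduct_smul, mulVec_smul, dotProduct_smul, ha]

theorem biIso {P0 P1 : Matrix n n k} (h0 : P0ᵀ = -P0) (h1 : P1ᵀ = -P1)
    (Λ : Submodule k[X] (n → k[X])) (hiso : ∀ g ∈ Λ, ∀ g' ∈ Λ, g ⬝ᵥ pen P0 P1 *ᵥ g' = 0)
    (l l' : n → k) (hl : l ∈ ann (bigE P0 P1 Λ : Set (n → k)))
    (hl' : l' ∈ ann (bigE P0 P1 Λ : Set (n → k))) :
    l ⬝ᵥ P0 *ᵥ l' = 0 ∧ l ⬝ᵥ P1 *ᵥ l' = 0 := by
  have h2 := part2 h0 h1 Λ hiso l hl
  have h3 : l ᵥ* P0 ∈ bigE P0 P1 Λ := by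
    obtain ⟨ξ, hξ⟩ := h2
    refine ⟨cv l - (X : k[X]) • ξ, fun g hg => ?_⟩
    rw [sub_dotProduct, cv_pen, smul_dotProduct, ← hξ g hg, smul_eq_mul]; ring
  exact ⟨by rw [dotProduct_mulVec, dotProduct_comm]; exact hl' _ h3,
    by rw [dotProduct_mulVec, dotProduct_comm]; exact hl' _ h2⟩

/-- the vector with entries `w i` at the places `c i` -/
def embc [DecidableEq n] {ρ : ℕ} (c : Fin ρ → n) {R : Type*} [CommRing R] (w : Fin ρ → R) :
    n → R := ∑ i, w i • (Pi.single (c i) (1 : R) : n → R)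

lemma reg_step [DecidableEq n] {P0 P1 : Matrix n n k} (h1 : P1ᵀ = -P1)
    (hreg : ((pen P0 P1).map (algebraMap k[X] (FractionRing k[X]))).rank ≤ P1.rank)
    (v : n → k) (q1 : k[X]) (hq1 : q1 ≠ 0) (u1 : n → k[X]) (h : q1 • cv v = pen P0 P1 *ᵥ u1) :
    ∃ (q : k[X]) (u : n → k[X]) (D : ℕ), q ≠ 0 ∧ q.natDegree = D + 1 ∧
      q • cv v = pen P0 P1 *ᵥ u ∧ ∀ d, D < d → cf u d = 0 := by
  classical
  obtain ⟨ρ, hrk, c, hc, hsp⟩ : ∃ ρ, P1.rank = ρ ∧ ∃ c : Fin ρ → n,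
      LinearIndependent k (P1.col ∘ c) ∧ Submodule.span k (Set.range (P1.col ∘ c)) =
        Submodule.span k (Set.range P1.col) :=
    ⟨_, rank_eq_finrank_span_cols P1, exists_indep (F := k) P1.col⟩
  have hnd : ∀ t : Fin ρ → k, (∀ j, (P1 *ᵥ embc c t) (c j) = 0) → t = 0 := by
    intro t ht
    have e1 : ∀ z ∈ Submodule.span k (Set.range (P1.col ∘ c)), embc c t ⬝ᵥ z = 0 := by
      intro z hz
      induction hz using Submodule.span_induction with
      | mem x hx =>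
        obtain ⟨j, rfl⟩ := hx
        have : (P1.col ∘ c) j = P1 *ᵥ Pi.single (c j) 1 := by simp
        rw [this, skew_dot h1, single_one_dotProduct, ht j, neg_zero]
      | zero => simp
      | add a b _ _ ha hb => rw [dotProduct_add, ha, hb, add_zero]
      | smul r a _ ha => rw [dotProduct_smul, ha, smul_zero]
    have e2 : P1 *ᵥ embc c t = 0 := by
      ext j
      have := e1 (P1.col j) (hsp ▸ Submodule.subset_span ⟨j, rfl⟩)
      have e3 : P1.col j = P1 *ᵥ Pi.single j 1 := by simp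
      rw [e3, skew_dot h1, single_one_dotProduct, neg_eq_zero] at this
      exact this
    have e4 : ∑ i, t i • (P1.col ∘ c) i = 0 := by
      rw [← e2]; simp [embc, mulVec_sum, mulVec_smul]
    ext i
    exact Fintype.linearIndependent_iff.1 hc t e4 i
  have hcf : ∀ (w : Fin ρ → k[X]) d, cf (embc c w) d = embc c (fun i => (w i).coeff d) := by
    intro w d
    ext j
    simp only [cf, embc, Finset.sum_apply, Pi.smul_apply, smul_eq_mul, finsetSum_coeff]
    refine Finset.sum_congr rfl fun i _ => ?_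
    by_cases hj : j = c i <;> simp [hj]
  have hdeg : ∀ (w : Fin ρ → k[X]) (D : ℕ), (∀ d, D < d → cf (pen P0 P1 *ᵥ embc c w) d = 0) →
      ∀ d, D ≤ d → (fun i => (w i).coeff d) = 0 := by
    intro w D hw
    have main : ∀ j d, D ≤ d → (Finset.univ.sup fun i => (w i).natDegree) < d + j →
        (fun i => (w i).coeff d) = 0 := by
      intro j
      induction j with
      | zero =>
        intro d _ hd
        ext i
        exact coeff_eq_zero_of_natDegree_lt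
          ((Finset.le_sup (f := fun i => (w i).natDegree) (Finset.mem_univ i)).trans_lt hd)
      | succ j ih =>
        intro d hd hd'
        have e1 := ih (d + 1) (by omega) (by omega)
        have e2 := cf_pen P0 P1 (embc c w) d
        rw [hw _ (by omega), hcf, hcf, e1] at e2
        refine hnd _ fun j => ?_
        have e3 : embc c (0 : Fin ρ → k) = 0 := by simp [embc]
        rw [e3, mulVec_zero, zero_add] at e2
        rw [← e2]; rfl
    intro d hd
    exact main _ d hd (Nat.lt_add_left d (Nat.lt_succ_self _))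
  have hsum : ∀ w : Fin ρ → k[X], ∑ i, w i • (pen P0 P1).col (c i) = pen P0 P1 *ᵥ embc c w := by
    intro w; simp [embc, mulVec_sum, mulVec_smul]
  have hli : LinearIndependent k[X] fun i => (pen P0 P1).col (c i) := by
    rw [Fintype.linearIndependent_iff]
    intro w hw i
    rw [hsum] at hw
    ext d
    exact congrFun (hdeg w 0 (fun d _ => by rw [hw]; ext; simp [cf]) d (Nat.zero_le _)) i
  have hdep : ¬ LinearIndependent k[X]
      (Fin.cons (pen P0 P1 *ᵥ u1) fun i => (pen P0 P1).col (c i) : Fin (ρ + 1) → n → k[X]) := by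
    intro hcon
    rw [← linearIndependent_algebraMap_comp_iff (S := FractionRing k[X])] at hcon
    set M := (pen P0 P1).map (algebraMap k[X] (FractionRing k[X])) with hM
    have hmem : ∀ z : n → k[X], (algebraMap k[X] (FractionRing k[X])) ∘ (pen P0 P1 *ᵥ z) ∈
        LinearMap.range M.mulVecLin := by
      intro z
      refine ⟨(algebraMap k[X] (FractionRing k[X])) ∘ z, ?_⟩
      ext j
      rw [mulVecLin_apply, hM, ← RingHom.map_mulVec]; rfl
    let V : Fin (ρ + 1) → LinearMap.range M.mulVecLin := fun i =>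
      ⟨(algebraMap k[X] (FractionRing k[X])) ∘ (Fin.cons (pen P0 P1 *ᵥ u1)
        fun i => (pen P0 P1).col (c i) : Fin (ρ + 1) → n → k[X]) i, by
        refine Fin.cases (hmem u1) (fun i => ?_) i
        simpa using hmem (Pi.single (c i) 1)⟩
    have hV : LinearIndependent (FractionRing k[X]) V :=
      LinearIndependent.of_comp (LinearMap.range M.mulVecLin).subtype hcon
    have := hV.fintype_card_le_finrank
    rw [Fintype.card_fin] at this
    have e : finrank (FractionRing k[X]) (LinearMap.range M.mulVecLin) = M.rank := rfl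
    omega
  rw [Fintype.not_linearIndependent_iff] at hdep
  obtain ⟨g, hg, i0, hi0⟩ := hdep
  rw [Fin.sum_univ_succ] at hg
  simp only [Fin.cons_zero, Fin.cons_succ] at hg
  have hg0 : g 0 ≠ 0 := by
    intro h0
    rw [h0, zero_smul, zero_add] at hg
    have := Fintype.linearIndependent_iff.1 hli _ hg
    exact hi0 (Fin.cases h0 this i0)
  set q := X * (g 0 * q1) with hq
  have hq0 : q ≠ 0 := mul_ne_zero X_ne_zero (mul_ne_zero hg0 hq1)
  have hqd : q.natDegree = (g 0 * q1).natDegree + 1 := natDegree_X_mul (mul_ne_zero hg0 hq1)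
  have hqv : q • cv v = pen P0 P1 *ᵥ embc c fun i => -(X * g i.succ) := by
    rw [← hsum, hq, mul_smul, mul_smul, h, eq_neg_of_add_eq_zero_left hg, smul_neg,
      Finset.smul_sum, ← Finset.sum_neg_distrib]
    simp [mul_smul]
  refine ⟨q, embc c fun i => -(X * g i.succ), _, hq0, hqd, hqv, fun d hd => ?_⟩
  rw [hcf, hdeg _ q.natDegree (fun d hd => ?_) d (by omega)]
  · simp [embc]
  · rw [← hqv]
    ext j
    simp [cf, cv, coeff_eq_zero_of_natDegree_lt hd]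

theorem dimE [DecidableEq n] {P0 P1 : Matrix n n k} (h0 : P0ᵀ = -P0) (h1 : P1ᵀ = -P1)
    (Λ : Submodule k[X] (n → k[X])) (hiso : ∀ g ∈ Λ, ∀ g' ∈ Λ, g ⬝ᵥ pen P0 P1 *ᵥ g' = 0)
    (hco : ∀ η : n → k[X], (∀ g ∈ Λ, η ⬝ᵥ g = 0) →
      ∃ q : k[X], q ≠ 0 ∧ ∃ ζ ∈ Λ, q • η = pen P0 P1 *ᵥ ζ)
    (hreg : ((pen P0 P1).map (algebraMap k[X] (FractionRing k[X]))).rank ≤ P1.rank) :
    2 * finrank k (bigE P0 P1 Λ) ≤ P1.rank := by
  have hsk := pen_skew h0 h1
  have hpre : ∀ v ∈ bigE P0 P1 Λ, ∃ (ξ η ζ : n → k[X]) (q : k[X]), q ≠ 0 ∧ ζ ∈ Λ ∧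
      q • η = pen P0 P1 *ᵥ ζ ∧ q • cv v = pen P0 P1 *ᵥ (ζ - q • ξ) := by
    rintro v ⟨ξ, hξ⟩
    obtain ⟨q, hq, ζ, hζ, h⟩ := hco (cv v + pen P0 P1 *ᵥ ξ) fun g hg => by
      rw [add_dotProduct, hξ g hg, skew_dot hsk ξ g, dotProduct_comm g]; ring
    refine ⟨ξ, _, ζ, q, hq, hζ, h, ?_⟩
    rw [mulVec_sub, mulVec_smul, ← h, smul_add]; abel
  have hθ : ∀ v ∈ bigE P0 P1 Λ, ∃ θ ∈ ann (bigE P0 P1 Λ : Set (n → k)), P1 *ᵥ θ = v := by
    intro v hv
    obtain ⟨ξ, η, ζ, q1, hq1, hζ, hη, hv1⟩ := hpre v hv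
    obtain ⟨q, u, D, hq, hD, hu, hcf⟩ := reg_step h1 hreg v q1 hq1 _ hv1
    have hl : q.leadingCoeff ≠ 0 := leadingCoeff_ne_zero.2 hq
    refine ⟨q.leadingCoeff⁻¹ • cf u D, Submodule.smul_mem _ _ fun v' hv' => ?_, ?_⟩
    · obtain ⟨ξ', η', ζ', q2, hq2, hζ', hη', hv2⟩ := hpre v' hv'
      have e1 : q2 * (cv v' ⬝ᵥ u) = -(q * ((ζ' - q2 • ξ') ⬝ᵥ cv v)) := by
        rw [← smul_eq_mul, ← smul_dotProduct, hv2, dotProduct_comm, skew_dot hsk, ← hu,
          dotProduct_smul, smul_eq_mul]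
      have e2 : q1 * ((ζ' - q2 • ξ') ⬝ᵥ cv v) =
          q1 * q2 * (ξ ⬝ᵥ η' - ξ' ⬝ᵥ η + ξ' ⬝ᵥ pen P0 P1 *ᵥ ξ) := by
        rw [← smul_eq_mul, ← dotProduct_smul, hv1, mulVec_sub, mulVec_smul, sub_dotProduct,
          dotProduct_sub, dotProduct_sub, hiso _ hζ' _ hζ, dotProduct_smul, skew_dot hsk ζ' ξ,
          ← hη', ← hη]
        simp only [smul_dotProduct, dotProduct_smul, smul_eq_mul]; ring
      have e3 : cv v' ⬝ᵥ u = q * -(ξ ⬝ᵥ η' - ξ' ⬝ᵥ η + ξ' ⬝ᵥ pen P0 P1 *ᵥ ξ) := by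
        refine mul_left_cancel₀ (mul_ne_zero hq1 hq2) ?_
        linear_combination q1 * e1 - q * e2
      have e4 : cv v' ⬝ᵥ u = 0 := by
        refine eq_zero_of_dvd_of_natDegree_lt ⟨_, e3⟩ ?_
        rw [hD, Nat.lt_succ_iff, natDegree_le_iff_coeff_eq_zero]
        intro N hN
        rw [coeff_cv_dot, hcf N hN, dotProduct_zero]
      rw [dotProduct_comm, ← coeff_cv_dot, e4, coeff_zero]
    · have e1 := cf_pen P0 P1 u D
      rw [hcf (D + 1) (by omega), mulVec_zero, zero_add, ← hu] at e1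
      rw [mulVec_smul, ← e1]
      ext j
      simp only [cf, cv, Pi.smul_apply, smul_eq_mul, coeff_mul_C, ← hD, coeff_natDegree]
      field_simp
  set E := bigE P0 P1 Λ with hE
  set L := ann (E : Set (n → k)) with hL
  have e1 := finrank_ann E
  have hker : LinearMap.ker P1.mulVecLin ≤ L := by
    intro κ hκ v hv
    obtain ⟨θ, -, rfl⟩ := hθ v hv
    have : P1 *ᵥ κ = 0 := hκ
    rw [skew_dot h1, this]; simp
  have e2 := LinearMap.finrank_range_add_finrank_ker (P1.mulVecLin.domRestrict L)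
  rw [LinearMap.range_domRestrict, LinearMap.ker_domRestrict,
    (Submodule.comapSubtypeEquivOfLe hker).finrank_eq] at e2
  have e3 : finrank k E ≤ finrank k (L.map P1.mulVecLin) := by
    refine Submodule.finrank_mono fun v hv => ?_
    obtain ⟨θ, h, rfl⟩ := hθ v hv
    exact ⟨θ, h, rfl⟩
  have e4 := LinearMap.finrank_range_add_finrank_ker P1.mulVecLin
  have e5 : finrank k (LinearMap.range P1.mulVecLin) = P1.rank := rfl
  rw [← hL] at e1
  simp only [finrank_fintype_fun_eq_card] at e4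
  omega

end Pool.Agent.MP_d920b6_mp.Nil
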