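import Pool.Agent.MP_d920b6_mp.NilV

namespace Pool.Agent.MP_d920b6_mp.Nil

open Matrix Module MvPolynomial

variable {K : Type*} [Field K] {n : ℕ}

noncomputable def jet (K : Type*) [Field K] (n : ℕ) :
    MvPolynomial (Fin n) K →ₐ[K] PowerSeries (MvPolynomial (Fin n × ℕ) K) :=
  aeval fun i => PowerSeries.mk fun l => X (i, l)

noncomputable def sigA (a : Fin n → K) : MvPolynomial (Fin n × ℕ) K →ₐ[K] MvPolynomial (Fin n) K :=
  aeval fun p => if p.2 = 0 then C (a p.1) else if p.2 = 1 then X p.1 else 0

noncomputable def dj (c : Fin n → Fin n → Fin n → K) (i : Fin n) (m : ℕ) :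
    Derivation K (MvPolynomial (Fin n × ℕ) K) (MvPolynomial (Fin n × ℕ) K) :=
  mkDerivation K fun p => if m ≤ p.2 then ∑ r, c i p.1 r • X (r, p.2 - m) else 0

lemma dj_X (c : Fin n → Fin n → Fin n → K) (i : Fin n) (m : ℕ) (j : Fin n) (l : ℕ) :
    dj c i m (X (j, l)) = if m ≤ l then ∑ r, c i j r • X (r, l - m) else 0 := by
  simp [dj, mkDerivation_X]

variable {c : Fin n → Fin n → Fin n → K}

lemma dj_comm (h : Tri c) (i j : Fin n) (m m' : ℕ) (u : MvPolynomial (Fin n × ℕ) K) :
    dj c i m (dj c j m' u) - dj c j m' (dj c i m u) = ∑ r, c i j r • dj c r (m + m') u := by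
  have : ⁅dj c i m, dj c j m'⁆ = ∑ r, c i j r • dj c r (m + m') := by
    refine derivation_ext fun p => ?_
    obtain ⟨l, t⟩ := p
    rw [Derivation.commutator_apply, der_sum_apply]
    by_cases ht : m + m' ≤ t
    · simp only [dj_X, show m ≤ t by omega, show m' ≤ t by omega, show m ≤ t - m' by omega,
        show m' ≤ t - m by omega, ht, if_true, map_sum, Derivation.map_smul,
        Derivation.smul_apply, Finset.smul_sum, smul_smul, show t - m' - m = t - (m + m') by omega,
        show t - m - m' = t - (m + m') by omega]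
      rw [Finset.sum_comm,
        Finset.sum_comm (f := fun k s => (c i l k * c j k s) • X (s, t - (m + m'))),
        Finset.sum_comm (f := fun k s => (c i j k * c k l s) • X (s, t - (m + m'))),
        ← Finset.sum_sub_distrib]
      refine Finset.sum_congr rfl fun s _ => ?_
      rw [← Finset.sum_smul, ← Finset.sum_smul, ← Finset.sum_smul, ← sub_smul, h.jac]
    · have e1 : dj c i m (dj c j m' (X (l, t))) = 0 := by
        rw [dj_X]
        split_ifs with h1
        · simp [dj_X, show ¬ m ≤ t - m' by omega]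
        · simp
      have e2 : dj c j m' (dj c i m (X (l, t))) = 0 := by
        rw [dj_X]
        split_ifs with h1
        · simp [dj_X, show ¬ m' ≤ t - m by omega]
        · simp
      rw [e1, e2]; simp [dj_X, ht]
  rw [← Derivation.commutator_apply, this, der_sum_apply]
  rfl

lemma hat_chain {S : Type*} [CommRing S] [Algebra K S] (σ : MvPolynomial (Fin n × ℕ) K →ₐ[K] S)
    (V : MvPolynomial (Fin n × ℕ) K →ₗ[K] S) (hV : ∀ a b, V (a * b) = σ a * V b + σ b * V a)
    (f : MvPolynomial (Fin n) K) (l : ℕ) :
    V (PowerSeries.coeff l (jet K n f)) = PowerSeries.coeff l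
      (∑ i, (PowerSeries.mk fun t => V (X (i, t))) *
        PowerSeries.mapAlgHom σ (jet K n (pderiv i f))) := by
  let W : MvPolynomial (Fin n) K →ₗ[K] PowerSeries S :=
    { toFun := fun f => PowerSeries.mk fun l => V (PowerSeries.coeff l (jet K n f))
      map_add' := fun a b => by ext; simp
      map_smul' := fun r a => by ext; simp }
  have := chain ((PowerSeries.mapAlgHom σ).comp (jet K n)) W (fun a b => by
    ext l
    simp only [W, LinearMap.coe_mk, AddHom.coe_mk, map_mul, PowerSeries.coeff_mk,
      PowerSeries.coeff_mul, map_sum, hV, map_add, Finset.sum_add_distrib, AlgHom.comp_apply,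
      PowerSeries.mapAlgHom_apply, PowerSeries.coeff_map]
    congr 1
    exact Finset.Nat.sum_antidiagonal_swap (n := l)
      (f := fun p => σ (PowerSeries.coeff p.1 (jet K n b)) *
        V (PowerSeries.coeff p.2 (jet K n a)))) f
  have e := congrArg (PowerSeries.coeff l) this
  simp only [W, LinearMap.coe_mk, AddHom.coe_mk, PowerSeries.coeff_mk] at e
  rw [e]
  simp [jet]

lemma dj_jet (i : Fin n) (m : ℕ) (f : MvPolynomial (Fin n) K) (l : ℕ) :
    dj c i m (PowerSeries.coeff l (jet K n f)) =
      PowerSeries.coeff l (PowerSeries.X ^ m * jet K n (ad c i f)) := by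
  have := hat_chain (AlgHom.id K _) (dj c i m : MvPolynomial (Fin n × ℕ) K →ₗ[K] _)
    (fun a b => by simp [Derivation.leibniz]) f l
  refine this.trans (congrArg _ ?_)
  rw [ad_eq, mulVec, dotProduct, map_sum, Finset.mul_sum]
  refine Finset.sum_congr rfl fun j _ => ?_
  rw [map_mul, ← mul_assoc]
  congr 1
  ext1 t
  rw [PowerSeries.coeff_X_pow_mul']
  simp [dj_X, PM, jet]

section Fr

variable {k : Type*} [Field k] [Algebra K k] (ι : MvPolynomial (Fin n) K →ₐ[K] k) (a : Fin n → K)

noncomputable def shf : MvPolynomial (Fin n) K →ₐ[K] Polynomial k :=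
  aeval fun i => Polynomial.C (algebraMap K k (a i)) + Polynomial.X * Polynomial.C (ι (X i))

lemma sig_jet (f : MvPolynomial (Fin n) K) :
    PowerSeries.mapAlgHom (ι.comp (sigA a)) (jet K n f) = (shf ι a f : PowerSeries k) := by
  have : (PowerSeries.mapAlgHom (ι.comp (sigA a))).comp (jet K n) =
      ((Polynomial.coeToPowerSeries.algHom k).restrictScalars K).comp (shf ι a) := by
    refine MvPolynomial.algHom_ext fun i => ?_
    ext l
    rw [AlgHom.comp_apply, PowerSeries.mapAlgHom_apply, PowerSeries.coeff_map]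
    rcases l with _ | _ | l <;> simp [jet, shf, sigA, PowerSeries.coeff_C]
  simpa using AlgHom.congr_fun this f

lemma shf_inj (hι : Function.Injective ι) : Function.Injective (shf ι a) := by
  let T : (Fin n → K) → MvPolynomial (Fin n) K →ₐ[K] MvPolynomial (Fin n) K :=
    fun b => aeval fun i => C (b i) + X i
  have hT : (T (-a)).comp (T a) = AlgHom.id K _ :=
    MvPolynomial.algHom_ext fun i => by simp [T]
  have : ((Polynomial.aeval (1 : k)).restrictScalars K).comp (shf ι a) = ι.comp (T a) :=
    MvPolynomial.algHom_ext fun i => by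
      have : ι (C (a i)) = algebraMap K k (a i) := ι.commutes _
      simp [shf, T, this]
  intro f g hfg
  have e1 : ι (T a f) = ι (T a g) := by
    rw [← AlgHom.comp_apply, ← AlgHom.comp_apply, ← this]
    simp [hfg]
  have e2 := congrArg (T (-a)) (hι e1)
  rwa [← AlgHom.comp_apply, ← AlgHom.comp_apply, hT] at e2

lemma shf_PM : (PM c).map (shf ι a) =
    pen (((PM c).map (eval a)).map (algebraMap K k)) ((PM c).map ι) := by
  ext1 i j
  simp only [pen, PM, map_apply, of_apply, Matrix.add_apply, Matrix.smul_apply, map_sum,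
    smul_eq_mul, Finset.mul_sum, ← Finset.sum_add_distrib]
  refine Finset.sum_congr rfl fun r _ => ?_
  simp [shf, Algebra.smul_def]
  ring

lemma dir_jet (v : Fin n → k) (f : MvPolynomial (Fin n) K) (l : ℕ) :
    dirD ι v (sigA a (PowerSeries.coeff l (jet K n f))) =
      (Polynomial.X * (cv v ⬝ᵥ (shf ι a ∘ grad f))).coeff l := by
  have := hat_chain (ι.comp (sigA a)) ((dirD ι v).comp (sigA a).toLinearMap)
    (fun x y => by simp [dirD_mul]) f l
  refine this.trans ?_
  rw [← Polynomial.coeff_coe]
  congr 1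
  rw [dotProduct, Finset.mul_sum, ← Polynomial.coeToPowerSeries.ringHom_apply, map_sum]
  refine Finset.sum_congr rfl fun j _ => ?_
  rw [sig_jet, ← mul_assoc, map_mul]
  congr 1
  ext t
  have e : ∀ r : K, dirD ι v (C r) = 0 := fun r => by simp [dirD_apply, grad, dotProduct]
  rcases t with _ | _ | t <;> simp [sigA, cv, dirD_X, e, PowerSeries.coeff_X]

end Fr

end Pool.Agent.MP_d920b6_mp.Nil
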