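import Mathlib

namespace Pool.Agent.MP_d920b6_mp.Nil

open Matrix Module

section Basic

variable {F : Type*} [Field F] {n : Type*} [Fintype n]

/-- annihilator for the dot product -/
def ann (W : Set (n → F)) : Submodule F (n → F) where
  carrier := {v | ∀ g ∈ W, v ⬝ᵥ g = 0}
  add_mem' := fun ha hb g hg => by rw [add_dotProduct, ha g hg, hb g hg, add_zero]
  zero_mem' := fun g _ => zero_dotProduct g
  smul_mem' := fun c v hv g hg => by rw [smul_dotProduct, hv g hg, smul_zero]

lemma mem_ann {W : Set (n → F)} {v : n → F} : v ∈ ann W ↔ ∀ g ∈ W, v ⬝ᵥ g = 0 := Iff.rfl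

lemma mem_of_ann (W : Submodule F (n → F)) (ξ : n → F)
    (h : ∀ v, (∀ g ∈ W, v ⬝ᵥ g = 0) → v ⬝ᵥ ξ = 0) : ξ ∈ W := by
  classical
  by_contra hx
  obtain ⟨f, hf, hW⟩ := Submodule.exists_dual_map_eq_bot_of_notMem hx inferInstance
  have hv : ∀ g, (fun i => f (Pi.single i 1)) ⬝ᵥ g = f g := by
    intro g
    conv_rhs => rw [pi_eq_sum_univ' g]
    simp [dotProduct, map_sum, mul_comm]
  refine hf ?_
  rw [← hv]
  refine h _ fun g hg => ?_
  rw [hv]
  have : f g ∈ W.map f := Submodule.mem_map_of_mem hg
  rw [hW] at this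
  exact (Submodule.mem_bot F).1 this

lemma finrank_ann (W : Submodule F (n → F)) :
    finrank F W + finrank F (ann (W : Set (n → F))) = Fintype.card n := by
  classical
  let B : LinearMap.BilinForm F (n → F) := dotProductBilin F F
  have h := LinearMap.BilinForm.finrank_add_finrank_orthogonal' (B := B) W
  have hk : B.ker = ⊥ := by
    rw [eq_bot_iff]
    intro v hv
    have hv' : ∀ g, v ⬝ᵥ g = 0 := fun g => by
      have := LinearMap.congr_fun (LinearMap.mem_ker.1 hv) g
      simpa [B] using this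
    ext i
    simpa using hv' (Pi.single i 1)
  have he : B.orthogonal W = ann (W : Set (n → F)) := by
    ext v
    rw [LinearMap.BilinForm.mem_orthogonal_iff, mem_ann]
    refine forall_congr' fun g => forall_congr' fun _ => ?_
    simp [B, dotProduct_comm]
  rw [hk, he, inf_bot_eq, finrank_bot, add_zero] at h
  simpa using h

lemma exists_indep {W ι : Type*} [AddCommGroup W] [Module F W] [FiniteDimensional F W]
    (v : ι → W) :
    ∃ g : Fin (finrank F (Submodule.span F (Set.range v))) → ι, LinearIndependent F (v ∘ g) ∧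
      Submodule.span F (Set.range (v ∘ g)) = Submodule.span F (Set.range v) := by
  obtain ⟨κ, a, -, hsp, hli⟩ := exists_linearIndependent' F v
  have : Finite κ := hli.finite
  have := Fintype.ofFinite κ
  have hc : Fintype.card κ = finrank F (Submodule.span F (Set.range v)) := by
    rw [← hsp]; exact (finrank_span_eq_card hli).symm
  let e := (Fintype.equivFinOfCardEq hc).symm
  refine ⟨a ∘ e, hli.comp e e.injective, ?_⟩
  rw [← Function.comp_assoc, e.surjective.range_comp, hsp]

lemma exists_minor {s : ℕ} (V : Fin s → n → F) (h : LinearIndependent F V) :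
    ∃ g : Fin s → n, (Matrix.of fun i j => V i (g j)).det ≠ 0 := by
  classical
  have h1 : (Matrix.of V).rank = s := by
    simpa using LinearIndependent.rank_matrix (M := Matrix.of V) h
  rw [rank_eq_finrank_span_cols] at h1
  obtain ⟨g, hg, -⟩ := exists_indep (F := F) (Matrix.of V).col
  let e : Fin s → Fin (finrank F (Submodule.span F (Set.range (Matrix.of V).col))) :=
    Fin.cast h1.symm
  refine ⟨g ∘ e, ?_⟩
  have h2 : LinearIndependent F (Matrix.of fun i j => V i ((g ∘ e) j)).col :=
    hg.comp e (Fin.cast_injective _)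
  rw [linearIndependent_cols_iff_isUnit, isUnit_iff_isUnit_det] at h2
  exact h2.ne_zero

lemma rank_map_le {K τ m : Type*} [Field K] [Infinite K] [Fintype m]
    (M : Matrix m n (MvPolynomial τ K)) (ψ : MvPolynomial τ K →+* F) (ρ : ℕ)
    (h : ∀ z : τ → K, (M.map (MvPolynomial.eval z)).rank ≤ ρ) : (M.map ψ).rank ≤ ρ := by
  classical
  by_contra hc
  rw [rank_eq_finrank_span_row] at hc
  obtain ⟨g, hg, -⟩ := exists_indep (F := F) (M.map ψ).row
  let e : Fin (ρ + 1) → Fin (finrank F (Submodule.span F (Set.range (M.map ψ).row))) :=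
    Fin.castLE (by omega)
  obtain ⟨c, hc'⟩ := exists_minor _ (hg.comp e (Fin.castLE_injective _))
  have h1 : (M.submatrix (g ∘ e) c).det ≠ 0 := by
    intro h0
    apply hc'
    have := RingHom.map_det ψ (M.submatrix (g ∘ e) c)
    rw [h0, map_zero] at this
    rw [this]; rfl
  obtain ⟨z, hz⟩ : ∃ z : τ → K, MvPolynomial.eval z (M.submatrix (g ∘ e) c).det ≠ 0 := by
    by_contra hn
    push Not at hn
    exact h1 (MvPolynomial.funext (by simpa using hn))
  rw [RingHom.map_det] at hz
  have h2 := rank_of_det_ne_zero hz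
  have h3 := rank_submatrix_le (M.map (MvPolynomial.eval z)) (g ∘ e) c
  have h4 := h z
  have : ((MvPolynomial.eval z).mapMatrix (M.submatrix (g ∘ e) c)) =
      (M.map (MvPolynomial.eval z)).submatrix (g ∘ e) c := rfl
  rw [this] at h2
  simp at h2
  omega

end Basic

section PID

open Polynomial

variable {k : Type*} [Field k]

lemma pid_dual {m : Type*} [Fintype m] (N : Submodule k[X] (m → k[X])) (w : m → k[X])
    (h : ∀ (u : m → k[X]) (q : k[X]), q.Monic → (∀ y ∈ N, q ∣ u ⬝ᵥ y) → q ∣ u ⬝ᵥ w) :
    w ∈ N := by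
  classical
  obtain ⟨s, snf⟩ := N.smithNormalForm (Pi.basisFun k[X] m)
  have hv : ∀ (f : (m → k[X]) →ₗ[k[X]] k[X]) g, (fun i => f (Pi.single i 1)) ⬝ᵥ g = f g := by
    intro f g
    conv_rhs => rw [pi_eq_sum_univ' g]
    simp [dotProduct, map_sum, mul_comm]
  have h' : ∀ (j : m) (q : k[X]), q.Monic → (∀ y ∈ N, q ∣ snf.bM.repr y j) →
      q ∣ snf.bM.repr w j := by
    intro j q hq hy
    have := h (fun i => snf.bM.coord j (Pi.single i 1)) q hq (fun y hy' => by
      rw [hv]; exact hy y hy')
    rwa [hv] at this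
  rw [← snf.bM.sum_repr w]
  refine Submodule.sum_mem _ fun j _ => ?_
  by_cases hj : j ∈ Set.range snf.f
  · obtain ⟨i, rfl⟩ := hj
    have ha : snf.a i ≠ 0 := by
      intro h0
      have := snf.snf i
      rw [h0, zero_smul] at this
      exact snf.bN.ne_zero i (Subtype.ext this)
    have hd : snf.a i ∣ snf.bM.repr w (snf.f i) := by
      refine (normalize_dvd_iff).1 (h' _ _ (monic_normalize ha) fun y hy => ?_)
      rw [normalize_dvd_iff]
      have := snf.repr_apply_embedding_eq_repr_smul ⟨y, hy⟩ (i := i)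
      simp only [map_smul, Finsupp.smul_apply, smul_eq_mul] at this
      exact ⟨_, this⟩
    obtain ⟨c, hc⟩ := hd
    rw [hc, mul_comm, mul_smul, ← snf.snf]
    exact N.smul_mem _ (snf.bN i).2
  · have h0 : snf.bM.repr w j = 0 := by
      refine eq_zero_of_dvd_of_natDegree_lt (p := X ^ ((snf.bM.repr w j).natDegree + 1))
        (h' j _ (monic_X_pow _) fun y hy => ?_) (by simp)
      rw [snf.repr_eq_zero_of_notMem_range ⟨y, hy⟩ hj]
      exact dvd_zero _
    rw [h0, zero_smul]
    exact zero_mem _

end PID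

end Pool.Agent.MP_d920b6_mp.Nil
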