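import Mathlib

namespace Pool.Agent.MP_d920b6_mp.Nil

open Finset

section U

variable {K R F ι : Type*} [Field K] [CharZero K] [CommRing R] [Algebra K R] [Field F]
  [Algebra K F]

/-- the largest ideal inside `ker σ` stable under all `δ i` -/
def bigJ (σ : R →ₐ[K] F) (δ : ι → Derivation K R R) : Ideal R :=
  sSup {I : Ideal R | (∀ u ∈ I, σ u = 0) ∧ ∀ i, ∀ u ∈ I, δ i u ∈ I}

omit [CharZero K] in
lemma bigJ_spec (σ : R →ₐ[K] F) (δ : ι → Derivation K R R) :
    ∀ u ∈ bigJ σ δ, σ u = 0 ∧ ∀ i, δ i u ∈ bigJ σ δ := by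
  intro u hu
  unfold bigJ at hu
  rw [sSup_eq_iSup'] at hu
  refine Submodule.iSup_induction (motive := fun u => σ u = 0 ∧ ∀ i, δ i u ∈ bigJ σ δ)
    _ hu ?_ ?_ ?_
  · rintro ⟨I, hI⟩ x hx
    exact ⟨hI.1 x hx, fun i => (le_sSup hI : I ≤ bigJ σ δ) (hI.2 i x hx)⟩
  · simp
  · rintro x y ⟨hx, hx'⟩ ⟨hy, hy'⟩
    exact ⟨by simp [hx, hy], fun i => by rw [map_add]; exact add_mem (hx' i) (hy' i)⟩

omit [CharZero K] in
lemma mem_bigJ (σ : R →ₐ[K] F) (δ : ι → Derivation K R R) (s : R) (h0 : σ s = 0)
    (hs : ∀ i, δ i s ∈ bigJ σ δ) : s ∈ bigJ σ δ := by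
  have key : ∀ u ∈ bigJ σ δ ⊔ Ideal.span {s},
      σ u = 0 ∧ ∀ i, δ i u ∈ bigJ σ δ ⊔ Ideal.span {s} := by
    intro u hu
    obtain ⟨y, hy, z, hz, rfl⟩ := Submodule.mem_sup.1 hu
    obtain ⟨c, rfl⟩ := Ideal.mem_span_singleton'.1 hz
    refine ⟨by simp [(bigJ_spec σ δ y hy).1, h0], fun i => ?_⟩
    rw [map_add, Derivation.leibniz, smul_eq_mul, smul_eq_mul]
    refine add_mem (Ideal.mem_sup_left ((bigJ_spec σ δ y hy).2 i)) (add_mem ?_ ?_)
    · exact Ideal.mem_sup_left (Ideal.mul_mem_left _ _ (hs i))
    · exact Ideal.mem_sup_right (Ideal.mul_mem_right _ _ (Ideal.mem_span_singleton_self s))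
  have : bigJ σ δ ⊔ Ideal.span {s} ≤ bigJ σ δ :=
    le_sSup (s := {I : Ideal R | (∀ u ∈ I, σ u = 0) ∧ ∀ i, ∀ u ∈ I, δ i u ∈ I})
      ⟨fun u hu => (key u hu).1, fun i u hu => (key u hu).2 i⟩
  exact this (Ideal.mem_sup_right (Ideal.mem_span_singleton_self s))

/-- elements of `O` sent into `J` by the derivations with index in `S` -/
def invB (J : Ideal R) (δ : ι → Derivation K R R) (O : Subalgebra K R) (S : Set ι) :
    Subalgebra K R where
  carrier := {u | u ∈ O ∧ ∀ i ∈ S, δ i u ∈ J}
  mul_mem' := by
    rintro a b ⟨ha, ha'⟩ ⟨hb, hb'⟩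
    refine ⟨mul_mem ha hb, fun i hi => ?_⟩
    rw [Derivation.leibniz, smul_eq_mul, smul_eq_mul]
    exact add_mem (J.mul_mem_left _ (hb' i hi)) (J.mul_mem_left _ (ha' i hi))
  add_mem' := by
    rintro a b ⟨ha, ha'⟩ ⟨hb, hb'⟩
    exact ⟨add_mem ha hb, fun i hi => by rw [map_add]; exact add_mem (ha' i hi) (hb' i hi)⟩
  algebraMap_mem' := fun r => ⟨O.algebraMap_mem r, fun i _ => by simp⟩

omit [CharZero K] in
lemma mem_invB {J : Ideal R} {δ : ι → Derivation K R R} {O : Subalgebra K R} {S : Set ι} {u : R} :
    u ∈ invB J δ O S ↔ u ∈ O ∧ ∀ i ∈ S, δ i u ∈ J := Iff.rfl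

/-- the Dixmier partial sums -/
noncomputable def dix (d : Derivation K R R) (s t b : R) : ℕ → R
  | 0 => b
  | k + 1 => s * dix d s t b k +
      ((-1) ^ (k + 1) / ((k + 1).factorial : K)) • (t ^ (k + 1) * (d : R → R)^[k + 1] b)

lemma dix_der (J : Ideal R) (d : Derivation K R R) (s t b : R) (hs : d s ∈ J) (ht : d t = s)
    (k : ℕ) : d (dix d s t b k) -
      ((-1) ^ k / (k.factorial : K)) • (t ^ k * (d : R → R)^[k + 1] b) ∈ J := by
  induction k with
  | zero => simp [dix]
  | succ k ih =>
    have hk : ((k + 1 : ℕ) : K) ≠ 0 := Nat.cast_ne_zero.2 (Nat.succ_ne_zero k)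
    have hf : (k.factorial : K) ≠ 0 := Nat.cast_ne_zero.2 (Nat.factorial_ne_zero k)
    have e : ((-1) ^ (k + 1) / ((k + 1).factorial : K)) * ((k + 1 : ℕ) : K) =
        -((-1) ^ k / (k.factorial : K)) := by
      rw [Nat.factorial_succ]; push_cast; push_cast at hk; field_simp; ring
    have : d (dix d s t b (k + 1)) - ((-1) ^ (k + 1) / ((k + 1).factorial : K)) •
        (t ^ (k + 1) * (d : R → R)^[k + 1 + 1] b) =
        s * (d (dix d s t b k) -
          ((-1) ^ k / (k.factorial : K)) • (t ^ k * (d : R → R)^[k + 1] b)) +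
          dix d s t b k * d s := by
      rw [dix, map_add, Derivation.leibniz, Derivation.map_smul, Derivation.leibniz,
        Derivation.leibniz_pow, ht, ← Function.iterate_succ_apply' (d : R → R) (k + 1) b]
      simp only [smul_eq_mul, Nat.add_sub_cancel, smul_add, Nat.succ_eq_add_one]
      have e2 : ((-1) ^ (k + 1) / ((k + 1).factorial : K)) •
          ((d : R → R)^[k + 1] b * (k + 1) • (t ^ k * s)) =
          -(s * ((-1) ^ k / (k.factorial : K)) • (t ^ k * (d : R → R)^[k + 1] b)) := by
        rw [← Nat.cast_smul_eq_nsmul K, mul_smul_comm, smul_smul, e, mul_smul_comm, neg_smul]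
        congr 2; ring
      rw [e2]; ring
    rw [this]
    exact add_mem (J.mul_mem_left _ ih) (J.mul_mem_left _ hs)

omit [CharZero K] in
lemma der_one (σ : R →ₐ[K] F) (w : R →ₗ[K] F)
    (hw : ∀ a b, w (a * b) = σ a * w b + σ b * w a) : w 1 = 0 := by
  have := hw 1 1
  simp only [mul_one, map_one, one_mul] at this
  exact left_eq_add.mp this

omit [CharZero K] in
lemma der_pow (σ : R →ₐ[K] F) (w : R →ₗ[K] F)
    (hw : ∀ a b, w (a * b) = σ a * w b + σ b * w a) (t : R) (ht : w t = 0) (k : ℕ) :
    w (t ^ k) = 0 := by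
  induction k with
  | zero => simpa using der_one σ w hw
  | succ k ih => rw [pow_succ, hw, ih, ht]; simp

theorem lemmaU [Fintype ι] [LinearOrder ι] (σ : R →ₐ[K] F) (δ : ι → Derivation K R R)
    (Fil : ℕ → Set R) (h0 : ∀ u ∈ Fil 0, u = 0)
    (hs : ∀ m i, ∀ u ∈ Fil (m + 1), δ i u ∈ Fil m) (hex : ∀ u, ∃ m, u ∈ Fil m)
    (hbr : ∀ i l, ∀ I : Ideal R, ∀ u, (∀ k < i, δ k u ∈ I) → δ i (δ l u) - δ l (δ i u) ∈ I)
    (O : Subalgebra K R) (hO : ∀ i, ∀ u ∈ O, δ i u ∈ O) :
    ∃ B : Set R, (∀ u ∈ B, u ∈ O ∧ ∀ i, σ (δ i u) = 0) ∧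
      ∀ v : R →ₗ[K] F, (∀ a b, v (a * b) = σ a * v b + σ b * v a) → (∀ u ∈ B, v u = 0) →
        ∃ c : ι → F, ∀ u ∈ O, v u = ∑ i, c i * σ (δ i u) := by
  classical
  set J := bigJ σ δ with hJ
  refine ⟨invB J δ O Set.univ, fun u hu =>
    ⟨hu.1, fun i => (bigJ_spec σ δ _ (hu.2 i trivial)).1⟩, ?_⟩
  intro v hv hvB
  have stab : ∀ S : Set ι, IsLowerSet S → ∀ l, ∀ u ∈ invB J δ O S, δ l u ∈ invB J δ O S := by
    intro S hS l u hu
    refine ⟨hO l u hu.1, fun i hi => ?_⟩
    have h1 := hbr i l J u fun k hk => hu.2 k (hS hk.le hi)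
    have h2 := (bigJ_spec σ δ _ (hu.2 i hi)).2 l
    simpa using add_mem h1 h2
  have main : ∀ (N : ℕ) (T : Finset ι), T.card = N → IsUpperSet (T : Set ι) →
      ∃ c : ι → F, ∀ u ∈ invB J δ O (↑T)ᶜ, v u = ∑ i, c i * σ (δ i u) := by
    intro N
    induction N with
    | zero =>
      intro T hT _
      rw [Finset.card_eq_zero] at hT
      subst hT
      refine ⟨0, fun u hu => ?_⟩
      simp only [Pi.zero_apply, zero_mul, sum_const_zero]
      exact hvB u (by simpa using hu)
    | succ N ih =>
      intro T hT hU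
      have hne : T.Nonempty := Finset.card_pos.1 (by omega)
      set j := T.min' hne with hj
      have hjT : j ∈ T := T.min'_mem hne
      have hU' : IsUpperSet (↑(T.erase j) : Set ι) := by
        intro a b hab ha
        simp only [coe_erase, Set.mem_sdiff, mem_coe, Set.mem_singleton_iff] at ha ⊢
        refine ⟨hU hab ha.1, fun hb => ha.2 (le_antisymm (hb ▸ hab) (T.min'_le a ha.1))⟩
      obtain ⟨c, hc⟩ := ih (T.erase j) (by rw [Finset.card_erase_of_mem hjT]; omega) hU'
      set S : Set ι := (↑T)ᶜ with hS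
      set S' : Set ι := (↑(T.erase j))ᶜ with hS'
      have hSl : IsLowerSet S := hU.compl
      have hmem : ∀ u, u ∈ invB J δ O S' ↔ u ∈ invB J δ O S ∧ δ j u ∈ J := by
        intro u
        constructor
        · intro hu
          refine ⟨⟨hu.1, fun i hi => hu.2 i ?_⟩, hu.2 j (by simp [hS'])⟩
          simp only [hS, hS', coe_erase, Set.mem_compl_iff, Set.mem_sdiff, mem_coe] at hi ⊢
          tauto
        · rintro ⟨hu, hu'⟩
          refine ⟨hu.1, fun i hi => ?_⟩
          by_cases hij : i = j
          · exact hij ▸ hu'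
          · refine hu.2 i ?_
            simp only [hS, hS', coe_erase, Set.mem_compl_iff, Set.mem_sdiff, mem_coe,
              Set.mem_singleton_iff] at hi ⊢
            tauto
      have hlt : ∀ k < j, k ∈ S := fun k hk hkT => absurd (T.min'_le k hkT) (not_le.2 hk)
      by_cases hall : ∃ t ∈ invB J δ O S, δ j t ∉ J ∧ ∀ l, δ l t ∈ invB J δ O S'
      · obtain ⟨t, htS, htJ, htl⟩ := hall
        set s := δ j t with hsdef
        have hsJ : ∀ l, δ l s ∈ J := by
          intro l
          have h1 := hbr j l J t fun k hk => htS.2 k (hlt k hk)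
          have h2 := ((hmem _).1 (htl l)).2
          simpa using sub_mem h2 h1
        have hs0 : σ s ≠ 0 := fun h => htJ (mem_bigJ σ δ s h hsJ)
        set e : F := (v t - ∑ i, c i * σ (δ i t)) / σ s with he
        set c' : ι → F := fun i => c i + if i = j then e else 0 with hc'
        have hsum : ∀ u, ∑ i, c' i * σ (δ i u) = ∑ i, c i * σ (δ i u) + e * σ (δ j u) := by
          intro u
          simp [hc', add_mul, Finset.sum_add_distrib]
        let w : R →ₗ[K] F :=
          { toFun := fun u => v u - ∑ i, c' i * σ (δ i u)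
            map_add' := fun a b => by
              simp only [map_add, mul_add, Finset.sum_add_distrib]; ring
            map_smul' := fun r a => by
              simp only [map_smul, Derivation.map_smul, RingHom.id_apply, smul_sub,
                Finset.smul_sum, mul_smul_comm] }
        have hwd : ∀ u, w u = v u - ∑ i, c' i * σ (δ i u) := fun u => rfl
        have hw : ∀ a b, w (a * b) = σ a * w b + σ b * w a := by
          intro a b
          simp only [hwd, hv, Derivation.leibniz, smul_eq_mul, map_add, map_mul, mul_add,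
            Finset.sum_add_distrib, mul_sub, Finset.mul_sum]
          have e1 : ∀ i, c' i * (σ a * σ (δ i b)) = σ a * (c' i * σ (δ i b)) := fun i => by ring
          have e2 : ∀ i, c' i * (σ b * σ (δ i a)) = σ b * (c' i * σ (δ i a)) := fun i => by ring
          simp only [e1, e2]; ring
        have hwS' : ∀ u ∈ invB J δ O S', w u = 0 := by
          intro u hu
          rw [hwd, hsum, hc u hu, (bigJ_spec σ δ _ ((hmem u).1 hu).2).1]; simp
        have hwt : w t = 0 := by
          rw [hwd, hsum, he, ← hsdef]; field_simp; ring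
        have hws : w s = 0 := hwS' s (htl j)
        have hsS : s ∈ invB J δ O S := stab S hSl j t htS
        have hit : ∀ b ∈ invB J δ O S, ∀ k, (δ j : R → R)^[k] b ∈ invB J δ O S := by
          intro b hb k
          induction k with
          | zero => exact hb
          | succ k ih => rw [Function.iterate_succ_apply']; exact stab S hSl j _ ih
        have hnil : ∀ m, ∀ b ∈ Fil m, (δ j : R → R)^[m] b = 0 := by
          intro m
          induction m with
          | zero => exact h0
          | succ m ih => intro b hb; exact ih _ (hs m j b hb)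
        have key : ∀ m, ∀ b ∈ Fil m, b ∈ invB J δ O S → ∀ k, w ((δ j : R → R)^[k] b) = 0 := by
          intro m
          induction m with
          | zero =>
            intro b hb _ k
            rw [h0 b hb, Function.iterate_fixed (map_zero _)]; simp
          | succ m ih =>
            intro b hb hbS k
            have hpos : ∀ k, w ((δ j : R → R)^[k + 1] b) = 0 := fun k =>
              ih _ (hs m j b hb) (stab S hSl j b hbS) k
            rcases k with _ | k
            · have h1 : ∀ k, dix (δ j) s t b k ∈ invB J δ O S ∧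
                  w (dix (δ j) s t b k) = σ s ^ k * w b := by
                intro k
                induction k with
                | zero => simpa [dix] using hbS
                | succ k ih =>
                  refine ⟨?_, ?_⟩
                  · exact add_mem (mul_mem hsS ih.1) (Subalgebra.smul_mem _
                      (mul_mem (pow_mem htS _) (hit b hbS _)) _)
                  · rw [dix, map_add, map_smul, hw, hw, hpos, der_pow σ w hw t hwt, hws, ih.2]
                    simp only [mul_zero, add_zero, smul_zero]; ring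
              have h2 := dix_der J (δ j) s t b (hsJ j) rfl m
              rw [hnil _ b hb] at h2
              simp only [mul_zero, smul_zero, sub_zero] at h2
              have h3 := hwS' _ ((hmem _).2 ⟨(h1 m).1, h2⟩)
              rw [(h1 m).2] at h3
              simpa [hs0] using h3
            · exact hpos k
        refine ⟨c', fun u hu => ?_⟩
        obtain ⟨m, hm⟩ := hex u
        have := key m u hm hu 0
        rw [Function.iterate_zero_apply, hwd] at this
        exact sub_eq_zero.1 this
      · push Not at hall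
        have : ∀ m, ∀ u ∈ Fil m, u ∈ invB J δ O S → u ∈ invB J δ O S' := by
          intro m
          induction m with
          | zero => intro u hu _; rw [h0 u hu]; exact zero_mem _
          | succ m ih =>
            intro u hu huS
            by_contra hcon
            obtain ⟨l, hl⟩ := hall u huS fun h => hcon ((hmem u).2 ⟨huS, h⟩)
            exact hl (ih _ (hs m l u hu) (stab S hSl l u huS))
        refine ⟨c, fun u hu => ?_⟩
        obtain ⟨m, hm⟩ := hex u
        exact hc u (this m u hm hu)
  obtain ⟨c, hc⟩ := main _ Finset.univ rfl (by simpa using isUpperSet_univ)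
  exact ⟨c, fun u hu => hc u ⟨hu, by simp⟩⟩

end U

section Fil

open MvPolynomial

variable {K τ : Type*} [Field K]

/-- span of the monomials of weight `< m` -/
noncomputable def fil (K : Type*) [Field K] (w : τ → ℕ) (m : ℕ) : Submodule K (MvPolynomial τ K) :=
  Submodule.span K {p | ∃ l : List τ, (l.map w).sum < m ∧ p = (l.map X).prod}

lemma fil_mono (w : τ → ℕ) {m m' : ℕ} (h : m ≤ m') : fil K w m ≤ fil K w m' :=
  Submodule.span_mono (by rintro p ⟨l, hl, rfl⟩; exact ⟨l, by omega, rfl⟩)

lemma fil_zero (w : τ → ℕ) (u : MvPolynomial τ K) (hu : u ∈ fil K w 0) : u = 0 := by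
  have : fil K w 0 = ⊥ := by
    rw [fil, Submodule.span_eq_bot]
    rintro p ⟨l, hl, -⟩; omega
  simpa [this] using hu

lemma fil_mul_X (w : τ → ℕ) (m : ℕ) (j : τ) (u : MvPolynomial τ K) (hu : u ∈ fil K w m) :
    X j * u ∈ fil K w (m + w j) := by
  induction hu using Submodule.span_induction with
  | mem p hp =>
    obtain ⟨l, hl, rfl⟩ := hp
    exact Submodule.subset_span ⟨j :: l, by simp; omega, by simp⟩
  | zero => simp
  | add a b _ _ ha hb => rw [mul_add]; exact add_mem ha hb
  | smul r a _ ha => rw [mul_smul_comm]; exact Submodule.smul_mem _ _ ha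

lemma fil_ex (w : τ → ℕ) (u : MvPolynomial τ K) : ∃ m, u ∈ fil K w m := by
  induction u using MvPolynomial.induction_on with
  | C a =>
    refine ⟨1, ?_⟩
    have : (C a : MvPolynomial τ K) = a • (1 : MvPolynomial τ K) := by simp [smul_eq_C_mul]
    rw [this]
    exact Submodule.smul_mem _ _ (Submodule.subset_span ⟨[], by simp, by simp⟩)
  | add p q hp hq =>
    obtain ⟨a, ha⟩ := hp
    obtain ⟨b, hb⟩ := hq
    exact ⟨max a b, add_mem (fil_mono w (le_max_left _ _) ha) (fil_mono w (le_max_right _ _) hb)⟩
  | mul_X p j hp =>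
    obtain ⟨a, ha⟩ := hp
    exact ⟨a + w j, by rw [mul_comm]; exact fil_mul_X w a j p ha⟩

lemma fil_der (w : τ → ℕ) (d : Derivation K (MvPolynomial τ K) (MvPolynomial τ K))
    (hd : ∀ j, d (X j) ∈ Submodule.span K {p | ∃ k, w k < w j ∧ p = X k})
    (m : ℕ) (u : MvPolynomial τ K) (hu : u ∈ fil K w (m + 1)) : d u ∈ fil K w m := by
  have key : ∀ l : List τ, d (l.map X).prod ∈ fil K w (l.map w).sum := by
    intro l
    induction l with
    | nil => simp
    | cons j l ih =>
      simp only [List.map_cons, List.prod_cons, List.sum_cons, Derivation.leibniz, smul_eq_mul]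
      refine add_mem ?_ ?_
      · rw [add_comm]; exact fil_mul_X w _ j _ ih
      · have := hd j
        generalize d (X j) = q at this
        induction this using Submodule.span_induction with
        | mem p hp =>
          obtain ⟨k, hk, rfl⟩ := hp
          exact Submodule.subset_span ⟨k :: l, by simp; omega, by simp [mul_comm]⟩
        | zero => simp
        | add a b _ _ ha hb => rw [mul_add]; exact add_mem ha hb
        | smul r a _ ha => rw [mul_smul_comm]; exact Submodule.smul_mem _ _ ha
  induction hu using Submodule.span_induction with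
  | mem p hp =>
    obtain ⟨l, hl, rfl⟩ := hp
    exact fil_mono w (by omega) (key l)
  | zero => simp
  | add a b _ _ ha hb => rw [map_add]; exact add_mem ha hb
  | smul r a _ ha => rw [Derivation.map_smul]; exact Submodule.smul_mem _ _ ha

/-- chain rule for a `ψ`-derivation -/
lemma chain [Fintype τ] {S : Type*} [CommRing S] [Algebra K S] (ψ : MvPolynomial τ K →ₐ[K] S)
    (W : MvPolynomial τ K →ₗ[K] S) (hW : ∀ a b, W (a * b) = ψ a * W b + ψ b * W a)
    (f : MvPolynomial τ K) : W f = ∑ i, W (X i) * ψ (pderiv i f) := by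
  classical
  have h1 : W 1 = 0 := by
    have := hW 1 1
    simp only [mul_one, map_one, one_mul] at this
    exact left_eq_add.mp this
  induction f using MvPolynomial.induction_on with
  | C a =>
    have : (C a : MvPolynomial τ K) = a • (1 : MvPolynomial τ K) := by simp [smul_eq_C_mul]
    rw [this, map_smul, h1]; simp
  | add p q hp hq => simp [hp, hq, mul_add, Finset.sum_add_distrib]
  | mul_X p j hp =>
    rw [hW, hp]
    simp only [Derivation.leibniz, smul_eq_mul, map_add, map_mul, mul_add,
      Finset.sum_add_distrib, pderiv_X, Finset.mul_sum]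
    congr 1
    · rw [Finset.sum_eq_single j]
      · simp [mul_comm]
      · intro i _ hi; simp [hi.symm]
      · simp
    · exact Finset.sum_congr rfl fun i _ => by ring

end Fil

end Pool.Agent.MP_d920b6_mp.Nil
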