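import Pool.Agent.MP_d920b6_mp.NilU
import Pool.Agent.MP_d920b6_mp.NilE

namespace Pool.Agent.MP_d920b6_mp.Nil

open Matrix Module MvPolynomial

variable {K : Type*} [Field K] {n : ℕ}

/-- triangular structure constants of a nilpotent Lie algebra -/
structure Tri (c : Fin n → Fin n → Fin n → K) : Prop where
  skew : ∀ i j k, c i j k = -c j i k
  tri : ∀ i j k, c i j k ≠ 0 → k < j
  jac : ∀ i j l m, ∑ k, c j l k * c i k m - ∑ k, c i l k * c j k m = ∑ k, c i j k * c k l m

variable (c : Fin n → Fin n → Fin n → K)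

noncomputable def PM : Matrix (Fin n) (Fin n) (MvPolynomial (Fin n) K) :=
  Matrix.of fun i j => ∑ k, c i j k • X k

noncomputable def ad (i : Fin n) :
    Derivation K (MvPolynomial (Fin n) K) (MvPolynomial (Fin n) K) :=
  mkDerivation K fun j => PM c i j

noncomputable def grad (f : MvPolynomial (Fin n) K) : Fin n → MvPolynomial (Fin n) K :=
  fun i => pderiv i f

lemma ad_X (i j : Fin n) : ad c i (X j) = ∑ k, c i j k • X k := by
  simp [ad, mkDerivation_X, PM]

lemma ad_eq (i : Fin n) (f : MvPolynomial (Fin n) K) : ad c i f = (PM c *ᵥ grad f) i := by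
  have := chain (AlgHom.id K _) (ad c i : MvPolynomial (Fin n) K →ₗ[K] _)
    (fun a b => by simp [Derivation.leibniz]) f
  simpa [ad, mkDerivation_X, mulVec, dotProduct, grad] using this

lemma der_sum_apply {R ι : Type*} [CommRing R] [Algebra K R] (s : Finset ι)
    (d : ι → Derivation K R R) (u : R) : (∑ i ∈ s, d i) u = ∑ i ∈ s, d i u := by
  classical
  induction s using Finset.induction_on with
  | empty => simp
  | insert a s ha ih => rw [Finset.sum_insert ha, Finset.sum_insert ha, Derivation.add_apply, ih]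

variable {c}

lemma Tri.tri' (h : Tri c) (i j k : Fin n) (hk : c i j k ≠ 0) : k < i :=
  h.tri j i k fun h0 => hk (by rw [h.skew, h0, neg_zero])

lemma PM_skew (h : Tri c) : (PM c)ᵀ = -PM c := by
  ext1 i j
  simp only [PM, transpose_apply, of_apply, Matrix.neg_apply, ← Finset.sum_neg_distrib, ← neg_smul]
  exact Finset.sum_congr rfl fun k _ => by rw [h.skew]

lemma ad_comm (h : Tri c) (i j : Fin n) (u : MvPolynomial (Fin n) K) :
    ad c i (ad c j u) - ad c j (ad c i u) = ∑ k, c i j k • ad c k u := by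
  have : ⁅ad c i, ad c j⁆ = ∑ k, c i j k • ad c k := by
    refine derivation_ext fun l => ?_
    rw [Derivation.commutator_apply, der_sum_apply]
    simp only [ad_X, map_sum, Derivation.map_smul, Derivation.smul_apply, Finset.smul_sum,
      smul_smul]
    rw [Finset.sum_comm, Finset.sum_comm (f := fun k m => (c i l k * c j k m) • X m),
      Finset.sum_comm (f := fun k m => (c i j k * c k l m) • X m), ← Finset.sum_sub_distrib]
    refine Finset.sum_congr rfl fun m _ => ?_
    rw [← Finset.sum_smul, ← Finset.sum_smul, ← Finset.sum_smul, ← sub_smul, h.jac]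
  rw [← Derivation.commutator_apply, this, der_sum_apply]
  rfl

/-- polynomials in the first `j` variables -/
noncomputable def low (K : Type*) [Field K] (n j : ℕ) : Subalgebra K (MvPolynomial (Fin n) K) :=
  Algebra.adjoin K {p | ∃ i : Fin n, i.val < j ∧ p = X i}

lemma der_low {j : ℕ} (d : Derivation K (MvPolynomial (Fin n) K) (MvPolynomial (Fin n) K))
    (I : Subalgebra K (MvPolynomial (Fin n) K)) (hI : low K n j ≤ I)
    (hd : ∀ i : Fin n, i.val < j → d (X i) ∈ I) (u) (hu : u ∈ low K n j) : d u ∈ I := by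
  induction hu using Algebra.adjoin_induction with
  | mem p hp => obtain ⟨i, hi, rfl⟩ := hp; exact hd i hi
  | algebraMap r => simp
  | add a b _ _ ha hb => rw [map_add]; exact add_mem ha hb
  | mul a b ha' hb' ha hb =>
    rw [Derivation.leibniz, smul_eq_mul, smul_eq_mul]
    exact add_mem (mul_mem (hI ha') hb) (mul_mem (hI hb') ha)

lemma grad_low {j : ℕ} (u) (hu : u ∈ low K n j) (l : Fin n) (hl : j ≤ l.val) : grad u l = 0 := by
  unfold grad
  induction hu using Algebra.adjoin_induction with
  | mem p hp =>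
    obtain ⟨i, hi, rfl⟩ := hp
    exact pderiv_X_of_ne (by rintro rfl; omega)
  | algebraMap r => simp
  | add a b _ _ ha hb => rw [map_add, ha, hb, add_zero]
  | mul a b _ _ ha hb => rw [Derivation.leibniz, ha, hb]; simp

lemma ad_low (h : Tri c) {j : ℕ} (l : Fin n) (u) (hu : u ∈ low K n j) : ad c l u ∈ low K n j := by
  refine der_low _ _ le_rfl (fun i hi => ?_) u hu
  rw [ad_X]
  refine Subalgebra.sum_mem _ fun k _ => ?_
  by_cases hk : c l i k = 0
  · simp [hk]
  · refine Subalgebra.smul_mem _ (Algebra.subset_adjoin ?_) _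
    exact ⟨k, by have := h.tri _ _ _ hk; omega, rfl⟩

variable (c) in
/-- Poisson centre of the symmetric algebra of the `j`-th ideal -/
def Zc (j : ℕ) : Set (MvPolynomial (Fin n) K) :=
  {f | f ∈ low K n j ∧ ∀ i : Fin n, i.val < j → ad c i f = 0}

lemma ad_Zc (h : Tri c) {j : ℕ} (l : Fin n) (f) (hf : f ∈ Zc c j) : ad c l f ∈ Zc c j := by
  refine ⟨ad_low h l f hf.1, fun i hi => ?_⟩
  have := ad_comm h i l f
  rw [hf.2 i hi, map_zero, sub_zero] at this
  rw [this]
  refine Finset.sum_eq_zero fun k _ => ?_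
  by_cases hk : c i l k = 0
  · simp [hk]
  · rw [hf.2 k (by have := h.tri' _ _ _ hk; omega), smul_zero]

section Pt

variable {S : Type*} [CommRing S] [Algebra K S] (ψ : MvPolynomial (Fin n) K →ₐ[K] S)

lemma map_ad (i : Fin n) (f : MvPolynomial (Fin n) K) :
    ψ (ad c i f) = ((PM c).map ψ *ᵥ (ψ ∘ grad f)) i := by
  simp [ad_eq, mulVec, dotProduct]

lemma map_skew (h : Tri c) : ((PM c).map ψ)ᵀ = -(PM c).map ψ := by
  rw [← transpose_map, PM_skew h]; ext; simp

lemma iso_Zc (h : Tri c) {i j : ℕ} (f g) (hf : f ∈ Zc c i) (hg : g ∈ Zc c j) :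
    (ψ ∘ grad f) ⬝ᵥ (PM c).map ψ *ᵥ (ψ ∘ grad g) = 0 := by
  wlog hij : i ≤ j generalizing i j f g
  · rw [skew_dot (map_skew ψ h), this g f hg hf (by omega), neg_zero]
  refine Finset.sum_eq_zero fun l _ => ?_
  by_cases hl : l.val < j
  · rw [← map_ad, hg.2 l hl]; simp
  · simp [grad_low f hf.1 l (by omega)]

lemma iso_span (h : Tri c) (W : Set (Fin n → S)) (hW : ∀ w ∈ W, ∃ j, ∃ f ∈ Zc c j, w = ψ ∘ grad f)
    (W' : Set (Fin n → S)) (hW' : ∀ w ∈ W', ∃ j, ∃ f ∈ Zc c j, w = ψ ∘ grad f)
    (a b) (ha : a ∈ Submodule.span S W) (hb : b ∈ Submodule.span S W') :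
    a ⬝ᵥ (PM c).map ψ *ᵥ b = 0 := by
  induction ha using Submodule.span_induction with
  | mem x hx =>
    induction hb using Submodule.span_induction with
    | mem y hy =>
      obtain ⟨i, f, hf, rfl⟩ := hW x hx
      obtain ⟨j, g, hg, rfl⟩ := hW' y hy
      exact iso_Zc ψ h f g hf hg
    | zero => simp
    | add a b _ _ ha hb => rw [mulVec_add, dotProduct_add, ha, hb, add_zero]
    | smul r a _ ha => rw [mulVec_smul, dotProduct_smul, ha, smul_zero]
  | zero => simp
  | add a b _ _ ha hb => rw [add_dotProduct, ha, hb, add_zero]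
  | smul r a _ ha => rw [smul_dotProduct, ha, smul_zero]

/-- the derivation along a vector -/
noncomputable def dirD (η : Fin n → S) : MvPolynomial (Fin n) K →ₗ[K] S where
  toFun u := η ⬝ᵥ (ψ ∘ grad u)
  map_add' a b := by simp [dotProduct, grad, mul_add, Finset.sum_add_distrib]
  map_smul' r a := by simp [dotProduct, grad, Finset.smul_sum]

lemma dirD_apply (η : Fin n → S) (u) : dirD ψ η u = η ⬝ᵥ (ψ ∘ grad u) := rfl

lemma dirD_mul (η : Fin n → S) (a b) :
    dirD ψ η (a * b) = ψ a * dirD ψ η b + ψ b * dirD ψ η a := by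
  simp only [dirD_apply, dotProduct, grad, Function.comp_apply, Derivation.leibniz, smul_eq_mul,
    map_add, map_mul, Finset.mul_sum, ← Finset.sum_add_distrib]
  exact Finset.sum_congr rfl fun i _ => by ring

lemma dirD_X (η : Fin n → S) (l) : dirD ψ η (X l) = η l := by
  simp only [dirD_apply, dotProduct, grad, Function.comp_apply, pderiv_X]
  rw [Finset.sum_eq_single l]
  · simp
  · intro i _ hi; simp [hi.symm]
  · simp

end Pt

variable [CharZero K] {F : Type*} [Field F] [Algebra K F] (ψ : MvPolynomial (Fin n) K →ₐ[K] F)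

lemma stepU (h : Tri c) (hψ : Function.Injective ψ) (j : ℕ) (η : Fin n → F)
    (hη : ∀ f ∈ Zc c j, η ⬝ᵥ (ψ ∘ grad f) = 0) :
    ∃ ξ : Fin n → F, (∀ i : Fin n, j ≤ i.val → ξ i = 0) ∧
      ∀ l : Fin n, l.val < j → η l = (ξ ᵥ* (PM c).map ψ) l := by
  let δ : Fin n → Derivation K (MvPolynomial (Fin n) K) (MvPolynomial (Fin n) K) :=
    fun i => if i.val < j then ad c i else 0
  obtain ⟨B, hB, hB'⟩ := lemmaU ψ δ (fun m => (fil K (Fin.val : Fin n → ℕ) m : Set _)) (fil_zero _)
    (fun m i u hu => fil_der _ _ (fun l => by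
      by_cases hi : i.val < j
      · simp only [δ, hi, if_true, ad_X]
        refine Submodule.sum_mem _ fun k _ => ?_
        by_cases hk : c i l k = 0
        · simp [hk]
        · exact Submodule.smul_mem _ _ (Submodule.subset_span ⟨k, h.tri _ _ _ hk, rfl⟩)
      · simp [δ, hi]) m u hu) (fil_ex _)
    (fun i l I u hu => by
      by_cases hi : i.val < j
      · by_cases hl : l.val < j
        · simp only [δ, hi, hl, if_true, ad_comm h]
          refine I.sum_mem fun k _ => ?_
          by_cases hk : c i l k = 0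
          · simp [hk]
          · have h1 := h.tri' _ _ _ hk
            have h2 := hu k h1
            simp only [δ, show k.val < j by omega, if_true] at h2
            rw [smul_eq_C_mul]
            exact I.mul_mem_left _ h2
        · simp [δ, hl]
      · simp [δ, hi]) (low K n j)
    (fun i u hu => by
      by_cases hi : i.val < j
      · simpa only [δ, hi, if_true] using ad_low h i u hu
      · simp [δ, hi])
  obtain ⟨e, he⟩ := hB' (dirD ψ η) (dirD_mul ψ η) fun u hu => hη u ⟨(hB u hu).1, fun i hi => by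
    have := (hB u hu).2 i
    simp only [δ, hi, if_true] at this
    exact hψ (by rw [this, map_zero])⟩
  refine ⟨fun i => if i.val < j then e i else 0, fun i hi => by simp [not_lt.2 hi], fun l hl => ?_⟩
  have := he (X l) (Algebra.subset_adjoin ⟨l, hl, rfl⟩)
  rw [dirD_X] at this
  rw [this]
  refine Finset.sum_congr rfl fun i _ => ?_
  by_cases hi : i.val < j
  · simp [δ, hi, ad, mkDerivation_X]
  · simp [δ, hi]

theorem coiso (h : Tri c) (hψ : Function.Injective ψ) (η : Fin n → F)
    (hη : ∀ j, ∀ f ∈ Zc c j, η ⬝ᵥ (ψ ∘ grad f) = 0) :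
    ∃ ζ ∈ Submodule.span F {w | ∃ j, ∃ f ∈ Zc c j, w = ψ ∘ grad f},
      η = (PM c).map ψ *ᵥ ζ := by
  have : CharZero F := charZero_of_injective_algebraMap (algebraMap K F).injective
  set P := (PM c).map ψ with hP
  have hsk : Pᵀ = -P := map_skew ψ h
  set W : Set (Fin n → F) := {w | ∃ j, ∃ f ∈ Zc c j, w = ψ ∘ grad f} with hW
  have hvm : ∀ ξ, ξ ᵥ* P = -(P *ᵥ ξ) := fun ξ => by rw [← mulVec_transpose, hsk, neg_mulVec]
  have main : ∀ j, ∃ ζ ∈ Submodule.span F W, ∀ l : Fin n, l.val < j → η l = (P *ᵥ ζ) l := by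
    intro j
    induction j with
    | zero => exact ⟨0, zero_mem _, fun l hl => by omega⟩
    | succ j ih =>
      obtain ⟨ζ, hζ, hl⟩ := ih
      obtain ⟨ξ, hξ0, hξ⟩ := stepU ψ h hψ (j + 1) (η - P *ᵥ ζ) fun f hf => by
        rw [sub_dotProduct, hη _ f hf, dotProduct_comm,
          iso_span ψ h W (fun _ => id) W (fun _ => id) _ _
            (Submodule.subset_span ⟨_, f, hf, rfl⟩) hζ, sub_zero]
      rw [← hP] at hξ
      have h1 : ∀ l : Fin n, l.val < j → (ξ ᵥ* P) l = 0 := fun l hl' => by
        rw [← hξ l (by omega), Pi.sub_apply, hl l hl', sub_self]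
      by_cases hj : ∃ l : Fin n, l.val = j ∧ ξ l ≠ 0
      · obtain ⟨l, hlj, hl0⟩ := hj
        have h2 : ξ ⬝ᵥ P *ᵥ ξ = 0 := by
          have := skew_dot hsk ξ ξ
          linear_combination (1 / 2 : F) * this
        rw [dotProduct_mulVec, dotProduct, Finset.sum_eq_single l] at h2
        · refine ⟨ζ, hζ, fun l' hl' => ?_⟩
          rcases Nat.lt_succ_iff_lt_or_eq.1 hl' with h3 | h3
          · exact hl l' h3
          · obtain rfl : l' = l := Fin.ext (by omega)
            rw [← sub_eq_zero, ← Pi.sub_apply, hξ l' hl']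
            exact (mul_eq_zero.1 h2).resolve_right hl0
        · intro i _ hi
          rcases lt_trichotomy i.val j with h3 | h3 | h3
          · rw [h1 i h3, zero_mul]
          · exact absurd (Fin.ext (by omega)) hi
          · rw [hξ0 i h3, mul_zero]
        · simp
      · push Not at hj
        have h2 : ∀ i : Fin n, j ≤ i.val → ξ i = 0 := fun i hi => by
          rcases hi.eq_or_lt with h3 | h3
          · exact hj i h3.symm
          · exact hξ0 i h3
        have h3 : ξ ∈ Submodule.span F W := by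
          refine mem_of_ann _ _ fun v hv => ?_
          obtain ⟨ξ', hξ'0, hξ'⟩ := stepU ψ h hψ j v fun f hf =>
            hv _ (Submodule.subset_span ⟨_, f, hf, rfl⟩)
          rw [← hP] at hξ'
          have e1 : v ⬝ᵥ ξ = (ξ' ᵥ* P) ⬝ᵥ ξ := Finset.sum_congr rfl fun l _ => by
            by_cases hl : l.val < j
            · rw [hξ' l hl]
            · rw [h2 l (by omega), mul_zero, mul_zero]
          rw [e1, ← dotProduct_mulVec, skew_dot hsk, dotProduct_mulVec, neg_eq_zero]
          refine Finset.sum_eq_zero fun l _ => ?_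
          by_cases hl : l.val < j
          · rw [h1 l hl, zero_mul]
          · rw [hξ'0 l (by omega), mul_zero]
        refine ⟨ζ - ξ, sub_mem hζ h3, fun l hl' => ?_⟩
        have := hξ l hl'
        rw [hvm] at this
        rw [mulVec_sub]
        simp only [Pi.sub_apply, Pi.neg_apply] at this ⊢
        linear_combination this
  obtain ⟨ζ, hζ, hl⟩ := main n
  exact ⟨ζ, hζ, funext fun l => hl l l.2⟩

end Pool.Agent.MP_d920b6_mp.Nil
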